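import Pool.Agent.H724R3.Vol.Tower

set_option autoImplicit false
set_option linter.unusedVariables false
set_option linter.unusedSectionVars false

open Filter Topology
open scoped BoundedContinuousFunction

namespace Pool.Agent.H724R3.Vol

section Tr

variable {E F G : Type} [NormedAddCommGroup E] [NormedSpace ℂ E] [NormedAddCommGroup F]
  [NormedSpace ℂ F] [NormedAddCommGroup G] [NormedSpace ℂ G]

/-- the dual space -/
abbrev Du (E : Type) [NormedAddCommGroup E] [NormedSpace ℂ E] : Type := E →L[ℂ] ℂ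

/-- the bitranspose -/
noncomputable def BT : (E →L[ℂ] F) →L[ℂ] (Du (Du E) →L[ℂ] Du (Du F)) :=
  (ContinuousLinearMap.compL ℂ (Du F) (Du E) ℂ).flip.comp
    (ContinuousLinearMap.compL ℂ E F ℂ).flip

theorem BT_apply (T : E →L[ℂ] F) (μ : Du (Du E)) (l : Du F) : BT T μ l = μ (l.comp T) := rfl

theorem BT_comp (S : F →L[ℂ] G) (T : E →L[ℂ] F) (μ : Du (Du E)) :
    BT (S.comp T) μ = BT S (BT T μ) := rfl

/-- the limit in the bidual along the ultrafilter -/
theorem exists_wlim (x : ℕ →ᵇ Du E) (l : E) : ∃ z : ℂ, Tendsto (fun ν => x ν l) UU (𝓝 z) :=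
  exists_ulim _ 0 (‖x‖ * ‖l‖) (fun n => by
    rw [dist_zero_right]
    exact ((x n).le_opNorm l).trans (by gcongr; exact x.norm_coe_le_norm n))

noncomputable def wl (x : ℕ →ᵇ Du E) (l : E) : ℂ := (exists_wlim x l).choose

theorem wl_spec (x : ℕ →ᵇ Du E) (l : E) : Tendsto (fun ν => x ν l) UU (𝓝 (wl x l)) :=
  (exists_wlim x l).choose_spec

theorem wl_le (x : ℕ →ᵇ Du E) (l : E) (r : ℝ) (hr : Tendsto (fun ν => ‖x ν‖) UU (𝓝 r)) :
    ‖wl x l‖ ≤ r * ‖l‖ :=
  le_of_tendsto_of_tendsto (wl_spec x l).norm (hr.mul_const ‖l‖)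
    (Eventually.of_forall (fun ν => (x ν).le_opNorm l))

/-- the limit as a functional -/
noncomputable def wL (x : ℕ →ᵇ Du E) : Du E :=
  LinearMap.mkContinuous
    { toFun := wl x
      map_add' := fun l m => by
        refine tendsto_nhds_unique (wl_spec x (l + m)) ?_
        simp_rw [map_add]
        exact (wl_spec x l).add (wl_spec x m)
      map_smul' := fun c l => by
        refine tendsto_nhds_unique (wl_spec x (c • l)) ?_
        simp_rw [map_smul]
        exact (wl_spec x l).const_smul c } ‖x‖ (fun l => by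
          obtain ⟨r, hr⟩ := exists_norm_ulim x
          refine (wl_le x l r hr).trans ?_
          gcongr
          exact le_of_tendsto hr (Eventually.of_forall (fun ν => x.norm_coe_le_norm ν)))

theorem wL_spec (x : ℕ →ᵇ Du E) (l : E) : Tendsto (fun ν => x ν l) UU (𝓝 (wL x l)) :=
  wl_spec x l

noncomputable def wLim : (ℕ →ᵇ Du E) →ₗ[ℂ] Du E where
  toFun := wL
  map_add' := fun x y => by
    ext l
    refine tendsto_nhds_unique (wL_spec (x + y) l) ?_
    exact (wL_spec x l).add (wL_spec y l)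
  map_smul' := fun c x => by
    ext l
    refine tendsto_nhds_unique (wL_spec (c • x) l) ?_
    exact (wL_spec x l).const_smul c

theorem wLim_spec (x : ℕ →ᵇ Du E) (l : E) : Tendsto (fun ν => x ν l) UU (𝓝 (wLim x l)) :=
  wl_spec x l

theorem wLim_norm (x : ℕ →ᵇ Du E) (r : ℝ) (hr : Tendsto (fun ν => ‖x ν‖) UU (𝓝 r)) :
    ‖wLim x‖ ≤ r := by
  have h0 : 0 ≤ r := ge_of_tendsto hr (Eventually.of_forall (fun ν => norm_nonneg _))
  exact ContinuousLinearMap.opNorm_le_bound _ h0 (fun l => wl_le x l r hr)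

theorem wLim_const (x : ℕ →ᵇ Du E) (y : Du E) (h : ∀ ν, x ν = y) : wLim x = y := by
  ext l
  refine tendsto_nhds_unique (wLim_spec x l) ?_
  simp_rw [h]
  exact tendsto_const_nhds

theorem wLim_BT (T : E →L[ℂ] F) (x : ℕ →ᵇ Du (Du E)) :
    wLim (post (BT T) x) = BT T (wLim x) := by
  ext l
  refine tendsto_nhds_unique (wLim_spec (post (BT T) x) l) ?_
  exact wLim_spec x (l.comp T)

theorem wLim_congr (x y : ℕ →ᵇ Du E) (h : ∀ ν, x ν = y ν) : wLim x = wLim y := by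
  congr 1
  ext ν : 1
  exact h ν

/-- splitting of the norm of the bidual -/
theorem bt_split (P : E →L[ℂ] E) (hP : ∀ f, ‖P f‖ + ‖f - P f‖ ≤ ‖f‖) (μ : Du (Du E)) :
    ‖BT P μ‖ + ‖μ - BT P μ‖ ≤ ‖μ‖ := by
  have key : ∀ l m : Du E, ‖l‖ ≤ 1 → ‖m‖ ≤ 1 → ‖BT P μ l‖ + ‖(μ - BT P μ) m‖ ≤ ‖μ‖ := by
    intro l m hl hm
    obtain ⟨c, hc, hc'⟩ : ∃ c : ℂ, ‖c‖ ≤ 1 ∧ c * BT P μ l = (‖BT P μ l‖ : ℂ) := by
      by_cases h : BT P μ l = 0
      · exact ⟨0, by simp, by simp [h]⟩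
      · refine ⟨(‖BT P μ l‖ : ℂ) / BT P μ l, ?_, ?_⟩
        · rw [norm_div, Complex.norm_real, norm_norm, div_self (norm_ne_zero_iff.2 h)]
        · rw [div_mul_cancel₀ _ h]
    obtain ⟨d, hd, hd'⟩ : ∃ d : ℂ, ‖d‖ ≤ 1 ∧ d * (μ - BT P μ) m = (‖(μ - BT P μ) m‖ : ℂ) := by
      by_cases h : (μ - BT P μ) m = 0
      · exact ⟨0, by simp, by simp [h]⟩
      · refine ⟨(‖(μ - BT P μ) m‖ : ℂ) / (μ - BT P μ) m, ?_, ?_⟩
        · rw [norm_div, Complex.norm_real, norm_norm, div_self (norm_ne_zero_iff.2 h)]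
        · rw [div_mul_cancel₀ _ h]
    let k : Du E := c • (l.comp P) + d • (m - m.comp P)
    have hk : ‖k‖ ≤ 1 := by
      refine ContinuousLinearMap.opNorm_le_bound _ zero_le_one (fun f => ?_)
      have e1 : k f = c * l (P f) + d * m (f - P f) := by
        change c • (l (P f)) + d • (m f - m (P f)) = _
        rw [map_sub, smul_eq_mul, smul_eq_mul]
      rw [e1]
      have e2 : ‖l (P f)‖ ≤ ‖P f‖ := (l.le_opNorm _).trans (by
        calc ‖l‖ * ‖P f‖ ≤ 1 * ‖P f‖ := by gcongr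
          _ = _ := one_mul _)
      have e3 : ‖m (f - P f)‖ ≤ ‖f - P f‖ := (m.le_opNorm _).trans (by
        calc ‖m‖ * ‖f - P f‖ ≤ 1 * ‖f - P f‖ := by gcongr
          _ = _ := one_mul _)
      calc ‖c * l (P f) + d * m (f - P f)‖ ≤ ‖c * l (P f)‖ + ‖d * m (f - P f)‖ := norm_add_le _ _
        _ = ‖c‖ * ‖l (P f)‖ + ‖d‖ * ‖m (f - P f)‖ := by rw [norm_mul, norm_mul]
        _ ≤ 1 * ‖P f‖ + 1 * ‖f - P f‖ := by gcongr
        _ = ‖P f‖ + ‖f - P f‖ := by ring
        _ ≤ ‖f‖ := hP f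
        _ = 1 * ‖f‖ := (one_mul _).symm
    have h1 : μ k = (‖BT P μ l‖ + ‖(μ - BT P μ) m‖ : ℝ) := by
      have e1 : μ k = c * BT P μ l + d * (μ - BT P μ) m := by
        change μ (c • (l.comp P) + d • (m - m.comp P)) = _
        rw [map_add, map_smul, map_smul, map_sub]
        rfl
      rw [e1, hc', hd']
      push_cast
      ring
    have h2 : ‖μ k‖ ≤ ‖μ‖ := (μ.le_opNorm k).trans (by
      calc ‖μ‖ * ‖k‖ ≤ ‖μ‖ * 1 := by gcongr
        _ = _ := mul_one _)
    rw [h1, Complex.norm_real, Real.norm_eq_abs] at h2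
    exact (le_abs_self _).trans h2
  have h1 : ∀ m : Du E, ‖m‖ ≤ 1 → ‖BT P μ‖ ≤ ‖μ‖ - ‖(μ - BT P μ) m‖ := by
    intro m hm
    have h0 := key 0 m (by simp) hm
    rw [map_zero, norm_zero, zero_add] at h0
    refine ContinuousLinearMap.opNorm_le_of_unit_norm (by linarith) (fun l hl => ?_)
    have := key l m hl.le hm
    linarith
  have h2 : ‖μ - BT P μ‖ ≤ ‖μ‖ - ‖BT P μ‖ := by
    have h0 := h1 0 (by simp)
    rw [map_zero, norm_zero, sub_zero] at h0
    refine ContinuousLinearMap.opNorm_le_of_unit_norm (by linarith) (fun m hm => ?_)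
    have := h1 m hm.le
    linarith
  linarith

end Tr

end Pool.Agent.H724R3.Vol
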