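import Pool.Agent.H724R3.Vol.Base
import Pool.Agent.H724R3.Vol.Bid

set_option autoImplicit false
set_option linter.unusedVariables false
set_option linter.unusedSectionVars false

open Filter Topology
open scoped BoundedContinuousFunction

namespace Pool.Agent.H724R3.Vol

variable {A : Type} [NonUnitalNormedRing A] [NormedSpace ℂ A] [IsScalarTower ℂ A A]
  [SMulCommClass ℂ A A]

/-- the bidual as a left module -/
noncomputable def bidual (A : Type) [NonUnitalNormedRing A] [NormedSpace ℂ A]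
    [IsScalarTower ℂ A A] [SMulCommClass ℂ A A] : LMod A where
  X := Du (Du A)
  act := BT.comp (ContinuousLinearMap.mul ℂ A)
  act_mul := fun a b μ => by
    ext l
    change μ (l.comp (ContinuousLinearMap.mul ℂ A (a * b))) =
      μ ((l.comp (ContinuousLinearMap.mul ℂ A a)).comp (ContinuousLinearMap.mul ℂ A b))
    congr 1
    ext c
    change l ((a * b) * c) = l (a * (b * c))
    rw [mul_assoc]

/-- a decomposition of the algebra -/
structure Dec (A : Type) [NonUnitalNormedRing A] [NormedSpace ℂ A] where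
  P : ℕ → A →L[ℂ] A
  P_zero : ∀ f, P 0 f = f
  P_le : ∀ m n f, m ≤ n → P m (P n f) = P n f
  P_ge : ∀ m n f, m ≤ n → P n (P m f) = P n f
  split : ∀ n f, ‖P n f‖ + ‖f - P n f‖ ≤ ‖f‖
  P_mul : ∀ n a b, P n (a * b) = P n (a * P n b)
  P_lim : ∀ f, Tendsto (fun n => P n f) atTop (𝓝 0)
  P_ne : ∀ n, ∃ a, a ≠ 0 ∧ P n a = a

namespace Dec

variable (d : Dec A)

/-- the operators on the bidual -/
noncomputable def Q (n : ℕ) : Du (Du A) →L[ℂ] Du (Du A) := BT (d.P n)

theorem Q_zero (μ : Du (Du A)) : d.Q 0 μ = μ := by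
  ext l
  change μ (l.comp (d.P 0)) = μ l
  congr 1
  ext f
  exact congrArg l (d.P_zero f)

theorem Q_le {m n : ℕ} (h : m ≤ n) (μ : Du (Du A)) : d.Q m (d.Q n μ) = d.Q n μ := by
  ext l
  change μ ((l.comp (d.P m)).comp (d.P n)) = μ (l.comp (d.P n))
  congr 1
  ext f
  exact congrArg l (d.P_le m n f h)

theorem Q_ge {m n : ℕ} (h : m ≤ n) (μ : Du (Du A)) : d.Q n (d.Q m μ) = d.Q n μ := by
  ext l
  change μ ((l.comp (d.P n)).comp (d.P m)) = μ (l.comp (d.P n))
  congr 1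
  ext f
  exact congrArg l (d.P_ge m n f h)

theorem Q_act (n : ℕ) (a : A) (μ : Du (Du A)) :
    d.Q n (BT (ContinuousLinearMap.mul ℂ A a) μ) =
      d.Q n (BT (ContinuousLinearMap.mul ℂ A a) (d.Q n μ)) := by
  ext l
  change μ ((l.comp (d.P n)).comp (ContinuousLinearMap.mul ℂ A a)) =
    μ (((l.comp (d.P n)).comp (ContinuousLinearMap.mul ℂ A a)).comp (d.P n))
  congr 1
  ext f
  exact congrArg l (d.P_mul n a f)

theorem Q_split (n : ℕ) (μ : Du (Du A)) : ‖d.Q n μ‖ + ‖μ - d.Q n μ‖ ≤ ‖μ‖ :=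
  bt_split (d.P n) (d.split n) μ

noncomputable def bas : Bas (bidual A) where
  Q := d.Q
  Q_zero := d.Q_zero
  Q_le := fun h μ => d.Q_le h μ
  Q_ge := fun h μ => d.Q_ge h μ
  Q_act := d.Q_act
  Q_split := d.Q_split
  Lim := wLim
  Lim_Q := fun n x => wLim_BT (d.P n) x
  Lim_act := fun a x => wLim_BT (ContinuousLinearMap.mul ℂ A a) x
  Lim_const := fun x y h => wLim_const x y h
  Lim_norm := fun x r hr => wLim_norm x r hr

/-- the identity of `A`, as a map to `Y`, is not given by an element of `Y` -/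
theorem not_TT : ¬ TT 0 d.bas.YM := by
  refine d.bas.not_TT (ContinuousLinearMap.apply ℂ ℂ : A →L[ℂ] Du (Du A)) d.P (fun n f => rfl)
    d.P_lim d.P_ne (fun a b => rfl) ?_ ?_
  · exact fun a => (NormedSpace.inclusionInDoubleDualLi (𝕜 := ℂ) (E := A)).norm_map a
  · intro a μ
    have h4 : ∀ μ : Du (Du A), ‖BT (ContinuousLinearMap.mul ℂ A a) μ‖ ≤ ‖a‖ * ‖μ‖ := by
      intro μ
      refine ContinuousLinearMap.opNorm_le_bound _ (by positivity) (fun l => ?_)
      change ‖μ (l.comp (ContinuousLinearMap.mul ℂ A a))‖ ≤ _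
      refine (μ.le_opNorm _).trans ?_
      have h5 : ‖l.comp (ContinuousLinearMap.mul ℂ A a)‖ ≤ ‖l‖ * ‖a‖ :=
        (ContinuousLinearMap.opNorm_comp_le _ _).trans (by
          gcongr
          exact ContinuousLinearMap.opNorm_mul_apply_le ℂ A a)
      calc ‖μ‖ * ‖l.comp (ContinuousLinearMap.mul ℂ A a)‖ ≤ ‖μ‖ * (‖l‖ * ‖a‖) := by gcongr
        _ = ‖a‖ * ‖μ‖ * ‖l‖ := by ring
    exact h4 μ

end Dec

/-- Main cohomological statement. -/
theorem exists_not_TT_of_dec (hA : BRAI A) (d : Dec A) (k : ℕ) : ∃ Z : LMod A, ¬ TT k Z := by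
  obtain ⟨Z, -, hZ⟩ := exists_not_TT hA d.bas.YM d.bas.tow d.not_TT k
  exact ⟨Z, hZ⟩

end Pool.Agent.H724R3.Vol
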