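import Pool.Agent.H724R3.Vol.L1

set_option autoImplicit false
set_option linter.unusedVariables false
set_option linter.unusedSectionVars false

namespace Pool.Agent.H724R3.Vol

variable {A : Type} [NonUnitalNormedRing A] [NormedSpace ℂ A] [IsScalarTower ℂ A A]
  [SMulCommClass ℂ A A]

/-- a left module as a bimodule with trivial right action -/
noncomputable abbrev bi (Y : LMod A) : BiMod A where
  X := Y.X
  lact := Y.act
  ract := 0
  lact_mul := Y.act_mul
  ract_mul := fun a b x => rfl
  lact_ract := fun a b x => by simp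

theorem hoch_bi (Y : LMod A) {n : ℕ} (f : (Fin n → A) → Y.X) (v : Fin (n + 1) → A) :
    hoch (bi Y) f v = Y.act (v 0) (f (Fin.tail v)) +
      ∑ i : Fin n, (-1 : ℤ) ^ ((i : ℕ) + 1) • f (Fin.contractNth i.castSucc (· * ·) v) := by
  unfold hoch
  change _ + _ + (-1 : ℤ) ^ (n + 1) • (0 : Y.X) = _
  rw [smul_zero, add_zero]

theorem contract_zero_tail {n : ℕ} (v : Fin (n + 2) → A) :
    Fin.tail (Fin.contractNth (0 : Fin (n + 2)) (· * ·) v) = Fin.tail (Fin.tail v) := by
  funext k
  simp [Fin.tail, Fin.contractNth]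

theorem contract_zero_zero {n : ℕ} (v : Fin (n + 2) → A) :
    Fin.contractNth (0 : Fin (n + 2)) (· * ·) v 0 = v 0 * v 1 := by
  simp [Fin.contractNth]

theorem contract_succ_zero {n : ℕ} (j : Fin (n + 1)) (v : Fin (n + 2) → A) :
    Fin.contractNth j.succ (· * ·) v 0 = v 0 := by
  simp [Fin.contractNth]

theorem contract_succ_tail {n : ℕ} (j : Fin (n + 1)) (v : Fin (n + 2) → A) :
    Fin.tail (Fin.contractNth j.succ (· * ·) v) = Fin.contractNth j (· * ·) (Fin.tail v) := by
  funext k
  simp [Fin.tail, Fin.contractNth]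

theorem hoch_tw (Y : LMod A) {n : ℕ} (F : (Fin n → A) → (A →L[ℂ] Y.X)) (v : Fin (n + 2) → A) :
    hoch (bi Y) (fun w : Fin (n + 1) → A => F (Fin.tail w) (w 0)) v =
      -((hoch (bi (tw Y)) F (Fin.tail v) : A →L[ℂ] Y.X) (v 0)) := by
  rw [hoch_bi, hoch_bi (tw Y), Fin.sum_univ_succ]
  have e1 : ∀ j : Fin n, (j.succ).castSucc = (j.castSucc).succ := fun j => rfl
  have e2 : ((0 : Fin (n + 1)).castSucc : Fin (n + 2)) = 0 := rfl
  simp only [e1, e2, contract_zero_tail, contract_zero_zero, contract_succ_zero,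
    contract_succ_tail]
  have e3 : ((((tw Y).act (Fin.tail v 0) (F (Fin.tail (Fin.tail v)))) +
      ∑ i : Fin n, (-1 : ℤ) ^ ((i : ℕ) + 1) • F (Fin.contractNth i.castSucc (· * ·) (Fin.tail v)) :
        A →L[ℂ] Y.X)) (v 0) =
      (F (Fin.tail (Fin.tail v)) (v 0 * Fin.tail v 0) -
        Y.act (v 0) (F (Fin.tail (Fin.tail v)) (Fin.tail v 0))) +
      ∑ i : Fin n, (-1 : ℤ) ^ ((i : ℕ) + 1) •
        F (Fin.contractNth i.castSucc (· * ·) (Fin.tail v)) (v 0) := by
    rw [add_apply, tw_act, sum_apply]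
    rfl
  rw [e3]
  have e4 : Fin.tail v 0 = v 1 := rfl
  rw [e4, neg_add, neg_sub, ← Finset.sum_neg_distrib]
  have e5 : ∀ i : Fin n, (-1 : ℤ) ^ (((i.succ : Fin (n + 1)) : ℕ) + 1) •
      F (Fin.contractNth i.castSucc (· * ·) (Fin.tail v)) (v 0) =
      -((-1 : ℤ) ^ ((i : ℕ) + 1) • F (Fin.contractNth i.castSucc (· * ·) (Fin.tail v)) (v 0)) := by
    intro i
    rw [Fin.val_succ, pow_succ, mul_neg_one, neg_smul]
  simp only [e5]
  have e6 : (-1 : ℤ) ^ (((0 : Fin (n + 1)) : ℕ) + 1) • F (Fin.tail (Fin.tail v)) (v 0 * v 1) =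
      -(F (Fin.tail (Fin.tail v)) (v 0 * v 1)) := by
    simp
  rw [e6]
  abel

/-- the vanishing of the Hochschild groups implies the vanishing of `Ext` -/
theorem TT_of_HZero : ∀ (n : ℕ) (Y : LMod A), HZero (bi Y) n → TT n Y
  | 0, Y, h => by
      intro f hf
      obtain ⟨g, hg⟩ := h (ContinuousMultilinearMap.ofSubsingleton ℂ A Y.X (0 : Fin 1) f)
        (fun v => by
          rw [hoch_bi, Fin.sum_univ_one]
          have e2 : ((0 : Fin 1).castSucc : Fin 2) = 0 := rfl
          rw [e2]
          change Y.act (v 0) (f (Fin.tail v 0)) + (-1 : ℤ) ^ (0 + 1) •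
            f (Fin.contractNth (0 : Fin 2) (· * ·) v 0) = 0
          rw [contract_zero_zero, hf]
          have e4 : Fin.tail v 0 = v 1 := rfl
          rw [e4]
          simp)
      refine ⟨g (fun i => i.elim0), fun a => ?_⟩
      have h1 := hg (fun _ => a)
      rw [hoch_bi, Finset.univ_eq_empty, Finset.sum_empty, add_zero] at h1
      have h2 : (Fin.tail (fun _ : Fin 1 => a)) = (fun i : Fin 0 => i.elim0) :=
        Subsingleton.elim _ _
      rw [h2] at h1
      exact h1.symm
  | n + 1, Y, h => by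
      refine TT_of_HZero n (tw Y) (fun F hF => ?_)
      let F' : ContinuousMultilinearMap ℂ (fun _ : Fin (n + 1) => A) (A →L[ℂ] Y.X) := F
      let φ : A →L[ℂ] ContinuousMultilinearMap ℂ (fun _ : Fin (n + 1) => A) Y.X :=
        LinearMap.mkContinuous
          { toFun := fun c => (ContinuousLinearMap.apply ℂ Y.X c).compContinuousMultilinearMap F'
            map_add' := fun c e => by
              ext w
              exact map_add (F' w) c e
            map_smul' := fun r c => by
              ext w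
              exact map_smul (F' w) r c } ‖F'‖ (fun c => by
            refine ContinuousMultilinearMap.opNorm_le_bound (by positivity) (fun w => ?_)
            change ‖F' w c‖ ≤ _
            calc ‖F' w c‖ ≤ ‖F' w‖ * ‖c‖ := (F' w).le_opNorm c
              _ ≤ (‖F'‖ * ∏ i, ‖w i‖) * ‖c‖ := by gcongr; exact F'.le_opNorm w
              _ = ‖F'‖ * ‖c‖ * ∏ i, ‖w i‖ := by ring)
      let f : ContinuousMultilinearMap ℂ (fun _ : Fin (n + 2) => A) Y.X :=
        ContinuousLinearMap.uncurryLeft φ
      have hf : ∀ v, f v = F' (Fin.tail v) (v 0) := fun v => rfl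
      obtain ⟨g, hg⟩ := h f (fun v => by
        have e1 : (f : (Fin (n + 2) → A) → Y.X) =
            (fun w : Fin (n + 2) → A => F' (Fin.tail w) (w 0)) := funext hf
        have e2 := hoch_tw Y (fun w => F' w) v
        rw [e1]
        rw [e2]
        have e3 := hF (Fin.tail v)
        change (hoch (bi (tw Y)) (fun w => F' w) (Fin.tail v) : A →L[ℂ] Y.X) = 0 at e3
        rw [e3]
        simp)
      let G : ContinuousMultilinearMap ℂ (fun _ : Fin n => A) (A →L[ℂ] Y.X) :=
        ContinuousLinearMap.flipMultilinear (ContinuousMultilinearMap.curryLeft g)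
      have hG : ∀ w c, G w c = g (Fin.cons c w) := fun w c => rfl
      refine ⟨-G, fun w => ?_⟩
      refine ContinuousLinearMap.ext fun c => ?_
      have e1 := hoch_tw Y (fun w => (-G) w) (Fin.cons c w)
      have e2 : (fun w : Fin (n + 1) → A => ((-G) (Fin.tail w) : A →L[ℂ] Y.X) (w 0)) =
          fun w => -(g w) := by
        funext w
        change -(G (Fin.tail w) (w 0)) = -(g w)
        rw [hG, Fin.cons_self_tail]
      rw [e2] at e1
      have e3 : hoch (bi Y) (fun w => -(g w)) (Fin.cons c w) =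
          -(hoch (bi Y) (fun w => g w) (Fin.cons c w)) := by
        rw [hoch_bi, hoch_bi, map_neg, neg_add, ← Finset.sum_neg_distrib]
        simp only [smul_neg]
      rw [e3, hg, Fin.tail_cons, Fin.cons_zero] at e1
      have e4 : f (Fin.cons c w) = F' w c := by rw [hf, Fin.tail_cons, Fin.cons_zero]
      rw [e4] at e1
      exact (neg_injective e1).symm

end Pool.Agent.H724R3.Vol
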