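import Pool.Agent.H724R3.Vol.L1

set_option autoImplicit false
set_option linter.unusedVariables false
set_option linter.unusedSectionVars false

namespace Pool.Agent.H724R3.Vol

variable {A : Type} [NonUnitalNormedRing A] [NormedSpace ℂ A] [IsScalarTower ℂ A A]
  [SMulCommClass ℂ A A]

theorem VV_of_zero (X : LMod A) (h : ∀ x : X.X, x = 0) : ∀ (k : ℕ) (Y : LMod A), VV k X Y
  | 0, Y => by
      intro f _
      refine ⟨0, fun a x => ?_⟩
      rw [h x]
      simp
  | k + 1, Y => VV_of_zero X h k (tw Y)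

namespace ProjRes

variable {M : LMod A} {n : ℕ} (R : ProjRes M n)

/-- the kernels -/
noncomputable def ks : ∀ j, Submodule ℂ (R.P j).X
  | 0 => LinearMap.ker R.ε.toLinearMap
  | j + 1 => LinearMap.ker (R.d j).toLinearMap

theorem ks_closed : ∀ j, IsClosed (R.ks j : Set (R.P j).X)
  | 0 => isClosed_singleton.preimage R.ε.continuous
  | j + 1 => isClosed_singleton.preimage (R.d j).continuous

theorem ks_act : ∀ (j : ℕ) (a : A), ∀ x ∈ R.ks j, (R.P j).act a x ∈ R.ks j
  | 0, a, x, hx => by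
      have h : R.ε x = 0 := hx
      change R.ε ((R.P 0).act a x) = 0
      rw [R.ε_mor, h, map_zero]
  | j + 1, a, x, hx => by
      have h : R.d j x = 0 := hx
      change R.d j ((R.P (j + 1)).act a x) = 0
      rw [R.d_mor, h, map_zero]

noncomputable abbrev KK (j : ℕ) : LMod A := subMod (R.P j) (R.ks j) (R.ks_closed j) (R.ks_act j)

theorem d_mem : ∀ (j : ℕ) (x : (R.P (j + 1)).X), R.d j x ∈ R.ks j
  | 0, x => R.ε_d x
  | j + 1, x => R.d_d j x

theorem d_s : ∀ (j : ℕ) (x : R.ks j), R.d j (R.s j x) = x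
  | 0, x => by
      have h1 := R.split_zero (x : (R.P 0).X)
      have h2 : R.ε (x : (R.P 0).X) = 0 := x.2
      rw [h2, map_zero, zero_add] at h1
      exact h1
  | j + 1, x => by
      have h1 := R.split_succ j (x : (R.P (j + 1)).X)
      have h2 : R.d j (x : (R.P (j + 1)).X) = 0 := x.2
      rw [h2, map_zero, zero_add] at h1
      exact h1

theorem sub_mem_zero (p : (R.P 0).X) : p - R.σ (R.ε p) ∈ R.ks 0 := by
  change R.ε (p - R.σ (R.ε p)) = 0
  rw [map_sub, R.split_ε, sub_self]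

theorem sub_mem_succ (j : ℕ) (p : (R.P (j + 1)).X) : p - R.s j (R.d j p) ∈ R.ks (j + 1) := by
  change R.d j (p - R.s j (R.d j p)) = 0
  rw [map_sub, R.d_s j ⟨R.d j p, R.d_mem j p⟩, sub_self]

theorem shift_zero (k : ℕ) (Y : LMod A) (h : VV k (R.KK 0) Y) : VV (k + 1) M Y := by
  refine VV_shift (K := R.KK 0) (P := R.P 0) (X := M) (R.ks 0).subtypeL R.ε R.σ
    ((ContinuousLinearMap.id ℂ (R.P 0).X - R.σ.comp R.ε).codRestrict (R.ks 0)
      (fun p => R.sub_mem_zero p)) (fun a x => rfl) R.ε_mor R.split_ε ?_ ?_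
      (fun k Y => VV_proj _ (R.proj 0) k Y) k Y h
  · intro x
    refine Subtype.ext ?_
    change (x : (R.P 0).X) - R.σ (R.ε (x : (R.P 0).X)) = x
    have h2 : R.ε (x : (R.P 0).X) = 0 := x.2
    rw [h2, map_zero, sub_zero]
  · intro p
    change (p - R.σ (R.ε p)) + R.σ (R.ε p) = p
    abel

theorem shift_succ (j k : ℕ) (Y : LMod A) (h : VV k (R.KK (j + 1)) Y) :
    VV (k + 1) (R.KK j) Y := by
  refine VV_shift (K := R.KK (j + 1)) (P := R.P (j + 1)) (X := R.KK j) (R.ks (j + 1)).subtypeL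
    ((R.d j).codRestrict (R.ks j) (R.d_mem j)) ((R.s j).comp (R.ks j).subtypeL)
    ((ContinuousLinearMap.id ℂ (R.P (j + 1)).X - (R.s j).comp (R.d j)).codRestrict (R.ks (j + 1))
      (fun p => R.sub_mem_succ j p)) (fun a x => rfl) (fun a x => Subtype.ext (R.d_mor j a x))
      (fun x => Subtype.ext (R.d_s j x)) ?_ ?_
      (fun k Y => VV_proj _ (R.proj (j + 1)) k Y) k Y h
  · intro x
    refine Subtype.ext ?_
    change (x : (R.P (j + 1)).X) - R.s j (R.d j (x : (R.P (j + 1)).X)) = x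
    have h2 : R.d j (x : (R.P (j + 1)).X) = 0 := x.2
    rw [h2, map_zero, sub_zero]
  · intro p
    change (p - R.s j (R.d j p)) + R.s j (R.d j p) = p
    abel

theorem VV_KK : ∀ (m j : ℕ), j + m = n → ∀ Y : LMod A, VV m (R.KK j) Y
  | 0, j, hj, Y => by
      refine VV_of_zero _ (fun x => ?_) 0 Y
      refine Subtype.ext ?_
      have h1 := R.d_s j x
      have h2 := R.zero (j + 1) (by omega) (R.s j x)
      rw [h2, map_zero] at h1
      exact h1.symm
  | m + 1, j, hj, Y => R.shift_succ j m Y (VV_KK m (j + 1) (by omega) Y)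

include R in
/-- A module with a projective resolution of length `n` has no cohomology above degree `n`. -/
theorem VV_succ (Y : LMod A) : VV (n + 1) M Y := R.shift_zero n Y (R.VV_KK n 0 (by omega) Y)

end ProjRes

end Pool.Agent.H724R3.Vol
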