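import Pool.Agent.H724R3.Vol.Defs

set_option autoImplicit false
set_option linter.unusedVariables false
set_option linter.unusedSectionVars false

namespace Pool.Agent.H724R3.Vol

section Alg

variable {A : Type} [NonUnitalNormedRing A] [NormedSpace ℂ A] [IsScalarTower ℂ A A]
  [SMulCommClass ℂ A A]

/-- The module `B(A, Y)` with the action `(a ∘ T)(b) = T (b a) - b T(a)`. -/
noncomputable abbrev tw (Y : LMod A) : LMod A where
  X := A →L[ℂ] Y.X
  act := (ContinuousLinearMap.compL ℂ A A Y.X).flip.comp (ContinuousLinearMap.mul ℂ A).flip -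
    (ContinuousLinearMap.compL ℂ (A →L[ℂ] Y.X) Y.X (A →L[ℂ] Y.X) Y.act.flip).comp
      (ContinuousLinearMap.apply ℂ Y.X)
  act_mul := fun a b T => by
    ext c
    simp only [sub_apply, ContinuousLinearMap.comp_apply,
      ContinuousLinearMap.flip_apply, ContinuousLinearMap.compL_apply,
      ContinuousLinearMap.mul_apply', ContinuousLinearMap.apply_apply, map_sub, Y.act_mul,
      mul_assoc]
    abel

theorem tw_act (Y : LMod A) (a : A) (T : A →L[ℂ] Y.X) (b : A) :
    ((tw Y).act a T : A →L[ℂ] Y.X) b = T (b * a) - Y.act b (T a) := rfl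

/-- `Ext^{k+1}_A(X, Y) = 0`, via `Ext^{k+1}(X, Y) = Ext^k(X, B(A, Y))`. -/
def VV : ℕ → LMod A → LMod A → Prop
  | 0, X, Y => ∀ f : A →L[ℂ] X.X →L[ℂ] Y.X,
      (∀ a b x, Y.act a (f b x) - f (a * b) x + f a (X.act b x) = 0) →
      ∃ g : X.X →L[ℂ] Y.X, ∀ a x, f a x = Y.act a (g x) - g (X.act a x)
  | k + 1, X, Y => VV k X (tw Y)

/-- `Ext^{k+1}_A(ℂ, Y) = 0` for the trivial module `ℂ`. -/
def TT : ℕ → LMod A → Prop
  | 0, Y => ∀ f : A →L[ℂ] Y.X, (∀ a b, f (a * b) = Y.act a (f b)) → ∃ y, ∀ a, f a = Y.act a y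
  | k + 1, Y => TT k (tw Y)

theorem TT_of_VV (X : LMod A) (hX : ∀ a x, X.act a x = 0) (φ : X.X →L[ℂ] ℂ) (x0 : X.X)
    (h0 : φ x0 = 1) : ∀ (k : ℕ) (Y : LMod A), VV k X Y → TT k Y
  | 0, Y, h => by
      intro f hf
      obtain ⟨g, hg⟩ := h ((ContinuousLinearMap.smulRightL ℂ X.X Y.X φ).comp f) (fun a b x => by
          have h1 : X.act b x = 0 := hX b x
          have h2 := hf a b
          change Y.act a (φ x • f b) - φ x • f (a * b) + φ (X.act b x) • f a = 0
          rw [h1, h2, map_smul, map_zero, zero_smul, sub_self, add_zero])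
      refine ⟨g x0, fun a => ?_⟩
      have h3 := hg a x0
      change φ x0 • f a = Y.act a (g x0) - g (X.act a x0) at h3
      rw [hX, map_zero, sub_zero, h0, one_smul] at h3
      exact h3
  | k + 1, Y, h => TT_of_VV X hX φ x0 h0 k (tw Y) h

/-- projective modules have no cohomology -/
theorem VV_proj_zero (P : LMod A) (hP : Projective P) (Y : LMod A) : VV 0 P Y := by
  intro f hf
  let E : LMod A :=
    { X := Y.X × P.X
      act := LinearMap.mkContinuous₂ (LinearMap.mk₂ ℂ
        (fun (a : A) (z : Y.X × P.X) => ((Y.act a z.1 + f a z.2, P.act a z.2) : Y.X × P.X))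
        (fun a b z => by
          ext
          · simp; abel
          · simp)
        (fun c a z => by
          ext
          · simp
          · simp)
        (fun a z w => by
          ext
          · simp; abel
          · simp)
        (fun c a z => by
          ext
          · simp
          · simp)) (‖Y.act‖ + ‖f‖ + ‖P.act‖) (fun a z => by
            have h1 : ‖z.1‖ ≤ ‖z‖ := norm_fst_le z
            have h2 : ‖z.2‖ ≤ ‖z‖ := norm_snd_le z
            have e1 := Y.act.le_opNorm₂ a z.1
            have e2 := f.le_opNorm₂ a z.2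
            have e3 := P.act.le_opNorm₂ a z.2
            have n1 := norm_nonneg Y.act
            have n2 := norm_nonneg f
            have n3 := norm_nonneg P.act
            have n4 := norm_nonneg a
            have n5 := norm_nonneg z
            have e1' : ‖Y.act‖ * ‖a‖ * ‖z.1‖ ≤ ‖Y.act‖ * ‖a‖ * ‖z‖ := by gcongr
            have e2' : ‖f‖ * ‖a‖ * ‖z.2‖ ≤ ‖f‖ * ‖a‖ * ‖z‖ := by gcongr
            have e3' : ‖P.act‖ * ‖a‖ * ‖z.2‖ ≤ ‖P.act‖ * ‖a‖ * ‖z‖ := by gcongr
            have m1 : 0 ≤ ‖Y.act‖ * ‖a‖ * ‖z‖ := by positivity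
            have m2 : 0 ≤ ‖f‖ * ‖a‖ * ‖z‖ := by positivity
            have m3 : 0 ≤ ‖P.act‖ * ‖a‖ * ‖z‖ := by positivity
            simp only [LinearMap.mk₂_apply]
            rw [Prod.norm_def]
            refine max_le ?_ ?_
            · refine (norm_add_le _ _).trans ?_
              nlinarith
            · nlinarith)
      act_mul := fun a b z => by
        have h := hf a b z.2
        change ((_, _) : Y.X × P.X) = (_, _)
        refine Prod.ext ?_ ?_
        · change Y.act (a * b) z.1 + f (a * b) z.2 =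
            Y.act a (Y.act b z.1 + f b z.2) + f a (P.act b z.2)
          rw [Y.act_mul, map_add, add_assoc, add_left_cancel_iff]
          have h' : f (a * b) z.2 = Y.act a (f b z.2) + f a (P.act b z.2) := by
            have := h
            rw [sub_add_eq_add_sub, sub_eq_zero] at this
            exact this.symm
          exact h'
        · exact P.act_mul a b z.2 }
  obtain ⟨ψ, h1, h2⟩ := hP E (ContinuousLinearMap.snd ℂ Y.X P.X) (fun a z => rfl)
    ⟨ContinuousLinearMap.inr ℂ Y.X P.X, fun p => rfl⟩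
  refine ⟨-((ContinuousLinearMap.fst ℂ Y.X P.X).comp ψ), fun a x => ?_⟩
  have h3 := congrArg Prod.fst (h1 a x)
  have h4 : (ψ x : Y.X × P.X).2 = x := h2 x
  change (ψ (P.act a x) : Y.X × P.X).1 = Y.act a (ψ x : Y.X × P.X).1 + f a (ψ x : Y.X × P.X).2
    at h3
  rw [h4] at h3
  change f a x = Y.act a (-(ψ x : Y.X × P.X).1) - -(ψ (P.act a x) : Y.X × P.X).1
  rw [h3, map_neg]
  abel

theorem VV_proj (P : LMod A) (hP : Projective P) : ∀ (k : ℕ) (Y : LMod A), VV k P Y
  | 0, Y => VV_proj_zero P hP Y
  | k + 1, Y => VV_proj P hP k (tw Y)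

/-- dimension shift in the first variable -/
theorem VV_shift {K P X : LMod A} (i : K.X →L[ℂ] P.X) (π : P.X →L[ℂ] X.X) (s : X.X →L[ℂ] P.X)
    (q : P.X →L[ℂ] K.X) (hi : IsMor K P i) (hπ : IsMor P X π) (h1 : ∀ x, π (s x) = x)
    (h2 : ∀ k, q (i k) = k) (h3 : ∀ p, i (q p) + s (π p) = p)
    (hP : ∀ (k : ℕ) (Y : LMod A), VV k P Y) :
    ∀ (k : ℕ) (Y : LMod A), VV k K Y → VV (k + 1) X Y
  | 0, Y, hK => by
      intro F hF
      have hpi : ∀ k, π (i k) = 0 := by
        intro k
        have e1 := h3 (i k)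
        rw [h2] at e1
        have e2 : s (π (i k)) = 0 := by
          have := e1
          simpa using this
        have e3 := h1 (π (i k))
        rw [e2, map_zero] at e3
        exact e3.symm
      -- pull back to `P`
      obtain ⟨G, hG⟩ := hP 1 Y ((ContinuousLinearMap.compL ℂ P.X X.X (A →L[ℂ] Y.X)).flip π |>.comp F)
        (fun a b x => by
          have := hF a b (π x)
          change (tw Y).act a (F b (π x)) - F (a * b) (π x) + F a (π (P.act b x)) = 0
          rw [hπ b x]
          exact this)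
      have hG' : ∀ (a : A) (p : P.X) (c : A), (F a (π p) : A →L[ℂ] Y.X) c =
          (G p : A →L[ℂ] Y.X) (c * a) - Y.act c ((G p : A →L[ℂ] Y.X) a)
            - (G (P.act a p) : A →L[ℂ] Y.X) c := by
        intro a p c
        have := congrArg (fun T : A →L[ℂ] Y.X => T c) (hG a p)
        exact this
      let g : A →L[ℂ] K.X →L[ℂ] Y.X := (G.comp i : K.X →L[ℂ] (A →L[ℂ] Y.X)).flip
      have hg : ∀ a k, g a k = (G (i k) : A →L[ℂ] Y.X) a := fun a k => rfl
      obtain ⟨h, hh⟩ := hK g (fun c a k => by
        have e1 := hG' a (i k) c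
        rw [hpi k, map_zero, ← hi a k] at e1
        change (0 : Y.X) = _ at e1
        change Y.act c ((G (i k) : A →L[ℂ] Y.X) a) - (G (i k) : A →L[ℂ] Y.X) (c * a) +
          (G (i (K.act a k)) : A →L[ℂ] Y.X) c = 0
        have e2 : Y.act c ((G (i k) : A →L[ℂ] Y.X) a) - (G (i k) : A →L[ℂ] Y.X) (c * a) +
          (G (i (K.act a k)) : A →L[ℂ] Y.X) c = -((G (i k) : A →L[ℂ] Y.X) (c * a) -
            Y.act c ((G (i k) : A →L[ℂ] Y.X) a) - (G (i (K.act a k)) : A →L[ℂ] Y.X) c) := by abel
        rw [e2, ← e1, neg_zero])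
      let ht : P.X →L[ℂ] Y.X := h.comp q
      -- `δ ht` as a map `P → B(A, Y)`
      let D : P.X →L[ℂ] (A →L[ℂ] Y.X) :=
        (Y.act.flip.comp ht) - ((ContinuousLinearMap.compL ℂ A P.X Y.X ht).comp P.act.flip)
      have hD : ∀ p c, D p c = Y.act c (ht p) - ht (P.act c p) := fun p c => rfl
      let G' : P.X →L[ℂ] (A →L[ℂ] Y.X) := G - D
      have hG'i : ∀ k, G' (i k) = 0 := by
        intro k
        ext a
        change (G (i k) : A →L[ℂ] Y.X) a - D (i k) a = 0
        rw [hD, ← hi a k]
        change (G (i k) : A →L[ℂ] Y.X) a - (Y.act a (h (q (i k))) - h (q (i (K.act a k)))) = 0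
        rw [h2, h2, ← hh a k, hg, sub_self]
      have hG's : ∀ p, G' (s (π p)) = G' p := by
        intro p
        have e1 := congrArg G' (h3 p)
        rw [map_add, hG'i, zero_add] at e1
        exact e1
      refine ⟨G'.comp s, fun a x => ?_⟩
      change F a x = (tw Y).act a (G' (s x)) - G' (s (X.act a x))
      have e0 : X.act a x = π (P.act a (s x)) := by rw [hπ, h1]
      rw [e0, hG's]
      refine ContinuousLinearMap.ext fun c => ?_
      have e1 := hG' a (s x) c
      rw [h1] at e1
      rw [e1]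
      change _ = ((tw Y).act a (G' (s x)) : A →L[ℂ] Y.X) c - G' (P.act a (s x)) c
      rw [tw_act]
      change _ = ((G (s x) : A →L[ℂ] Y.X) (c * a) - D (s x) (c * a)) -
        Y.act c ((G (s x) : A →L[ℂ] Y.X) a - D (s x) a) -
        ((G (P.act a (s x)) : A →L[ℂ] Y.X) c - D (P.act a (s x)) c)
      rw [hD, hD, hD, P.act_mul, Y.act_mul]
      simp only [map_sub]
      abel
  | k + 1, Y, hK => VV_shift i π s q hi hπ h1 h2 h3 hP k (tw Y) hK

/-- bounded `A`-linear limits -/
def UL (D : LMod A) : Prop :=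
  ∃ Λ : BoundedContinuousFunction ℕ D.X →ₗ[ℂ] D.X, ∃ K : ℝ,
    (∀ x, ‖Λ x‖ ≤ K * ‖x‖) ∧
    (∀ (a : A) (x y : BoundedContinuousFunction ℕ D.X), (∀ n, y n = D.act a (x n)) →
      Λ y = D.act a (Λ x)) ∧
    (∀ (x : BoundedContinuousFunction ℕ D.X) (y : D.X),
      Filter.Tendsto (fun n => x n) Filter.atTop (nhds y) → Λ x = y)

/-- evaluation of a bounded sequence of operators -/
noncomputable def evb {Y : Type} [NormedAddCommGroup Y] [NormedSpace ℂ Y] (b : A)
    (T : BoundedContinuousFunction ℕ (A →L[ℂ] Y)) : BoundedContinuousFunction ℕ Y :=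
  BoundedContinuousFunction.ofNormedAddCommGroup (fun n => T n b)
    (continuous_of_discreteTopology) (‖T‖ * ‖b‖) (fun n =>
      ((T n).le_opNorm b).trans (by gcongr; exact T.norm_coe_le_norm n))

theorem UL_tw (D : LMod A) (h : UL D) : UL (tw D) := by
  obtain ⟨Λ, K, hK, hA, hL⟩ := h
  have hb : ∀ (b : A) (T : BoundedContinuousFunction ℕ (A →L[ℂ] D.X)) (n : ℕ),
    evb b T n = T n b := fun b T n => rfl
  have hnorm : ∀ (b : A) (T : BoundedContinuousFunction ℕ (A →L[ℂ] D.X)),
      ‖evb b T‖ ≤ ‖T‖ * ‖b‖ := fun b T =>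
    BoundedContinuousFunction.norm_ofNormedAddCommGroup_le _ (by positivity) _
  have hK' : ∀ (T : BoundedContinuousFunction ℕ (A →L[ℂ] D.X)) (b : A),
      ‖Λ (evb b T)‖ ≤ (|K| * ‖T‖) * ‖b‖ := by
    intro T b
    calc ‖Λ (evb b T)‖ ≤ K * ‖evb b T‖ := hK _
      _ ≤ |K| * ‖evb b T‖ := by gcongr; exact le_abs_self K
      _ ≤ |K| * (‖T‖ * ‖b‖) := by gcongr; exact hnorm b T
      _ = (|K| * ‖T‖) * ‖b‖ := by ring
  let L0 : BoundedContinuousFunction ℕ (A →L[ℂ] D.X) → (A →L[ℂ] D.X) := fun T =>
    LinearMap.mkContinuous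
      { toFun := fun b => Λ (evb b T)
        map_add' := fun b c => by
          rw [← map_add]
          congr 1
          ext n
          change T n (b + c) = T n b + T n c
          rw [map_add]
        map_smul' := fun r b => by
          rw [RingHom.id_apply, ← map_smul]
          congr 1
          ext n
          change T n (r • b) = r • T n b
          rw [map_smul] } (|K| * ‖T‖) (fun b => hK' T b)
  have hL0 : ∀ T b, L0 T b = Λ (evb b T) := fun T b => rfl
  refine ⟨{ toFun := L0
            map_add' := fun S T => ?_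
            map_smul' := fun r T => ?_ }, |K|, ?_, ?_, ?_⟩
  · refine ContinuousLinearMap.ext fun b => ?_
    change Λ (evb b (S + T)) = Λ (evb b S) + Λ (evb b T)
    rw [← map_add]
    congr 1
  · refine ContinuousLinearMap.ext fun b => ?_
    change Λ (evb b (r • T)) = r • Λ (evb b T)
    rw [← map_smul]
    congr 1
  · intro T
    refine ContinuousLinearMap.opNorm_le_bound _ (by positivity) (fun b => ?_)
    exact hK' T b
  · intro a T S hS
    refine ContinuousLinearMap.ext fun b => ?_
    change Λ (evb b S) = ((tw D).act a (L0 T) : A →L[ℂ] D.X) b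
    rw [tw_act, hL0, hL0]
    have e1 : Λ (evb b S + evb b S) = Λ (evb b S) + Λ (evb b S) := map_add _ _ _
    -- `S n b = T n (b a) - b T n a`
    have e2 : evb b S = evb (b * a) T - (evb (b * a) T - evb b S) := by abel
    have e3 : Λ (evb (b * a) T - evb b S) = D.act b (Λ (evb a T)) := by
      apply hA b (evb a T)
      intro n
      change T n (b * a) - S n b = D.act b (T n a)
      rw [hS n, tw_act]
      abel
    rw [e2, map_sub, e3]
  · intro T y hy
    refine ContinuousLinearMap.ext fun b => ?_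
    change Λ (evb b T) = y b
    apply hL
    have : Filter.Tendsto (fun n => T n b) Filter.atTop (nhds (y b)) :=
      ((ContinuousLinearMap.apply ℂ D.X b).continuous.tendsto y).comp hy
    exact this

variable (A) in
/-- a sequential bounded right approximate identity -/
def BRAI : Prop := ∃ (e : ℕ → A) (C : ℝ), (∀ n, ‖e n‖ ≤ C) ∧
  ∀ a, Filter.Tendsto (fun n => a * e n) Filter.atTop (nhds a)

theorem TT_zero_of_UL (hA : BRAI A) (D : LMod A) (h : UL D) : TT 0 D := by
  obtain ⟨Λ, K, hK, hΛA, hL⟩ := h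
  obtain ⟨e, C, he, hlim⟩ := hA
  intro f hf
  have hC : 0 ≤ C := (norm_nonneg _).trans (he 0)
  let x : BoundedContinuousFunction ℕ D.X :=
    BoundedContinuousFunction.ofNormedAddCommGroup (fun n => f (e n))
      continuous_of_discreteTopology (‖f‖ * C) (fun n => (f.le_opNorm _).trans
        (by gcongr; exact he n))
  refine ⟨Λ x, fun a => ?_⟩
  let y : BoundedContinuousFunction ℕ D.X :=
    BoundedContinuousFunction.ofNormedAddCommGroup (fun n => D.act a (f (e n)))
      continuous_of_discreteTopology (‖D.act a‖ * (‖f‖ * C)) (fun n =>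
        ((D.act a).le_opNorm _).trans (by
          gcongr
          exact (f.le_opNorm _).trans (by gcongr; exact he n)))
  have h1 : Λ y = D.act a (Λ x) := hΛA a x y (fun n => rfl)
  have h2 : Λ y = f a := by
    apply hL
    have h3 : ∀ n, y n = f (a * e n) := fun n => (hf a (e n)).symm
    simp_rw [h3]
    exact (f.continuous.tendsto a).comp (hlim a)
  rw [← h1, h2]

/-- dimension shift in the second variable -/
theorem TT_shift (hA : BRAI A) : ∀ (k : ℕ) {Y' D Y : LMod A} (j : Y'.X →L[ℂ] D.X)
    (σ : D.X →L[ℂ] Y.X) (s : Y.X →L[ℂ] D.X) (q : D.X →L[ℂ] Y'.X), IsMor Y' D j → IsMor D Y σ →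
    (∀ y, σ (s y) = y) → (∀ y, q (j y) = y) → (∀ z, j (q z) + s (σ z) = z) → UL D →
    TT (k + 1) Y' → TT k Y
  | 0, Y', D, Y, j, σ, s, q, hj, hσ, h1, h2, h3, hU, hT => by
      intro f hf
      have hσj : ∀ y, σ (j y) = 0 := by
        intro y
        have e1 := h3 (j y)
        rw [h2] at e1
        have e2 : s (σ (j y)) = 0 := by simpa using e1
        have e3 := h1 (σ (j y))
        rw [e2, map_zero] at e3
        exact e3.symm
      -- the cocycle
      let φ : A →L[ℂ] D.X := s.comp f
      let F : A →L[ℂ] (A →L[ℂ] Y'.X) :=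
        (ContinuousLinearMap.compL ℂ A D.X Y'.X q).comp
          ((ContinuousLinearMap.compL ℂ A A D.X φ).comp (ContinuousLinearMap.mul ℂ A).flip -
            D.act.flip.comp φ)
      have hF : ∀ a c, F a c = q (φ (c * a) - D.act c (φ a)) := fun a c => rfl
      have hjF : ∀ a c, j (F a c) = φ (c * a) - D.act c (φ a) := by
        intro a c
        rw [hF]
        have e1 := h3 (φ (c * a) - D.act c (φ a))
        have e2 : σ (φ (c * a) - D.act c (φ a)) = 0 := by
          rw [map_sub, hσ]
          change σ (s (f (c * a))) - Y.act c (σ (s (f a))) = 0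
          rw [h1, h1, hf, sub_self]
        rw [e2, map_zero, add_zero] at e1
        exact e1
      have hinj : Function.Injective j := fun x y h => by
        have := congrArg q h
        rwa [h2, h2] at this
      obtain ⟨T, hTT⟩ := hT F (fun a b => by
        refine ContinuousLinearMap.ext fun c => ?_
        apply hinj
        rw [tw_act, map_sub, hj, hjF, hjF, hjF, map_sub, ← D.act_mul, mul_assoc]
        abel)
      have hT' : ∀ a c, F a c = (T : A →L[ℂ] Y'.X) (c * a) - Y'.act c ((T : A →L[ℂ] Y'.X) a) := by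
        intro a c
        rw [hTT a]
        rfl
      obtain ⟨x, hx⟩ := TT_zero_of_UL hA D hU (φ - j.comp (T : A →L[ℂ] Y'.X)) (fun c a => by
        change φ (c * a) - j ((T : A →L[ℂ] Y'.X) (c * a)) =
          D.act c (φ a - j ((T : A →L[ℂ] Y'.X) a))
        have e1 := hjF a c
        rw [hT', map_sub, hj] at e1
        rw [map_sub]
        have e2 : φ (c * a) = j ((T : A →L[ℂ] Y'.X) (c * a)) -
          D.act c (j ((T : A →L[ℂ] Y'.X) a)) + D.act c (φ a) := by
          rw [e1]; abel
        rw [e2]; abel)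
      refine ⟨σ x, fun a => ?_⟩
      have e1 := congrArg σ (hx a)
      rw [hσ] at e1
      rw [← e1]
      change f a = σ (s (f a) - j ((T : A →L[ℂ] Y'.X) a))
      rw [map_sub, hσj, sub_zero, h1]
  | k + 1, Y', D, Y, j, σ, s, q, hj, hσ, h1, h2, h3, hU, hT => by
      have := TT_shift hA k (Y' := tw Y') (D := tw D) (Y := tw Y)
        (ContinuousLinearMap.compL ℂ A Y'.X D.X j) (ContinuousLinearMap.compL ℂ A D.X Y.X σ)
        (ContinuousLinearMap.compL ℂ A Y.X D.X s) (ContinuousLinearMap.compL ℂ A D.X Y'.X q)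
        (fun a T => by
          refine ContinuousLinearMap.ext fun c => ?_
          change j (T (c * a) - Y'.act c (T a)) = j (T (c * a)) - D.act c (j (T a))
          rw [map_sub, hj])
        (fun a T => by
          refine ContinuousLinearMap.ext fun c => ?_
          change σ (T (c * a) - D.act c (T a)) = σ (T (c * a)) - Y.act c (σ (T a))
          rw [map_sub, hσ])
        (fun T => ContinuousLinearMap.ext fun c => h1 _)
        (fun T => ContinuousLinearMap.ext fun c => h2 _)
        (fun T => ContinuousLinearMap.ext fun c => h3 _) (UL_tw D hU) hT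
      exact this

end Alg

end Pool.Agent.H724R3.Vol
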