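import Pool.Agent.H724R3.Vol.Tower

set_option autoImplicit false
set_option linter.unusedVariables false
set_option linter.unusedSectionVars false

open Filter Topology
open scoped BoundedContinuousFunction

namespace Pool.Agent.H724R3.Vol

variable {A : Type} [NonUnitalNormedRing A] [NormedSpace ℂ A] [IsScalarTower ℂ A A]
  [SMulCommClass ℂ A A]

/-- decreasing `ℓ¹`-projections and limits on a module -/
structure Bas (B : LMod A) where
  Q : ℕ → B.X →L[ℂ] B.X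
  Q_zero : ∀ μ, Q 0 μ = μ
  Q_le : ∀ {m n : ℕ}, m ≤ n → ∀ μ, Q m (Q n μ) = Q n μ
  Q_ge : ∀ {m n : ℕ}, m ≤ n → ∀ μ, Q n (Q m μ) = Q n μ
  Q_act : ∀ n a μ, Q n (B.act a μ) = Q n (B.act a (Q n μ))
  Q_split : ∀ n μ, ‖Q n μ‖ + ‖μ - Q n μ‖ ≤ ‖μ‖
  Lim : (ℕ →ᵇ B.X) →ₗ[ℂ] B.X
  Lim_Q : ∀ n x, Lim (post (Q n) x) = Q n (Lim x)
  Lim_act : ∀ a x, Lim (post (B.act a) x) = B.act a (Lim x)
  Lim_const : ∀ (x : ℕ →ᵇ B.X) (y : B.X), (∀ ν, x ν = y) → Lim x = y
  Lim_norm : ∀ (x : ℕ →ᵇ B.X) (r : ℝ), Tendsto (fun ν => ‖x ν‖) UU (𝓝 r) → ‖Lim x‖ ≤ r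

namespace Bas

variable {B : LMod A} (d : Bas B)

theorem Q_comm (m n : ℕ) (μ : B.X) : d.Q m (d.Q n μ) = d.Q n (d.Q m μ) := by
  rcases le_total m n with h | h
  · rw [d.Q_le h, d.Q_ge h]
  · rw [d.Q_ge h, d.Q_le h]

theorem Q_norm (n : ℕ) (μ : B.X) : ‖d.Q n μ‖ ≤ ‖μ‖ := by
  have := d.Q_split n μ
  have := norm_nonneg (μ - d.Q n μ)
  linarith

theorem Q_norm' (n : ℕ) (μ : B.X) : ‖μ - d.Q n μ‖ ≤ ‖μ‖ := by
  have := d.Q_split n μ
  have := norm_nonneg (d.Q n μ)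
  linarith

/-- the submodule `Y` -/
noncomputable def pY : Submodule ℂ B.X where
  carrier := {μ | Tendsto (fun n => d.Q n μ) atTop (𝓝 0)}
  add_mem' := fun {x y} hx hy => by
    have : Tendsto (fun n => d.Q n x + d.Q n y) atTop (𝓝 (0 + 0)) := Tendsto.add hx hy
    rw [add_zero] at this
    exact this.congr (fun n => (map_add _ _ _).symm)
  zero_mem' := by
    change Tendsto (fun n => d.Q n 0) atTop (𝓝 0)
    simp only [map_zero]
    exact tendsto_const_nhds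
  smul_mem' := fun c x hx => by
    have : Tendsto (fun n => c • d.Q n x) atTop (𝓝 (c • (0 : B.X))) := Tendsto.const_smul hx c
    rw [smul_zero] at this
    exact this.congr (fun n => (map_smul _ _ _).symm)

theorem mem_pY (μ : B.X) : μ ∈ d.pY ↔ Tendsto (fun n => d.Q n μ) atTop (𝓝 0) := Iff.rfl

theorem pY_closed : IsClosed (d.pY : Set B.X) := by
  rw [← isSeqClosed_iff_isClosed]
  intro x μ hx hμ
  change Tendsto (fun n => d.Q n μ) atTop (𝓝 0)
  rw [Metric.tendsto_atTop]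
  intro ε hε
  have h1 := Metric.tendsto_atTop.1 hμ (ε / 2) (by linarith)
  obtain ⟨k, hk⟩ := h1
  have h2 := hk k le_rfl
  have h3 : Tendsto (fun n => d.Q n (x k)) atTop (𝓝 0) := hx k
  obtain ⟨N, hN⟩ := Metric.tendsto_atTop.1 h3 (ε / 2) (by linarith)
  refine ⟨N, fun n hn => ?_⟩
  have h4 := hN n hn
  rw [dist_zero_right] at h4 ⊢
  have h5 : d.Q n μ = d.Q n (x k) - d.Q n (x k - μ) := by rw [map_sub]; abel
  rw [h5]
  refine (norm_sub_le _ _).trans_lt ?_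
  have h6 := d.Q_norm n (x k - μ)
  rw [dist_eq_norm] at h2
  linarith

theorem pY_act (a : A) (μ : B.X) (hμ : μ ∈ d.pY) : B.act a μ ∈ d.pY := by
  rw [mem_pY] at hμ ⊢
  rw [tendsto_zero_iff_norm_tendsto_zero] at hμ ⊢
  have h1 : Tendsto (fun n => ‖B.act a‖ * ‖d.Q n μ‖) atTop (𝓝 0) := by
    have := hμ.const_mul ‖B.act a‖
    rwa [mul_zero] at this
  refine squeeze_zero (fun n => norm_nonneg _) (fun n => ?_) h1
  rw [d.Q_act]
  exact (d.Q_norm n _).trans ((B.act a).le_opNorm _)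

/-- the first module of the tower -/
noncomputable abbrev YM : LMod A := subMod B d.pY d.pY_closed d.pY_act

theorem Q_mem (n : ℕ) (μ : B.X) (hμ : μ ∈ d.pY) : d.Q n μ ∈ d.pY := by
  rw [mem_pY] at hμ ⊢
  rw [tendsto_zero_iff_norm_tendsto_zero] at hμ ⊢
  refine squeeze_zero (fun n => norm_nonneg _) (fun m => ?_) hμ
  rw [d.Q_comm]
  exact d.Q_norm n _

/-- an element killed by some `Q n` is in `Y` -/
theorem mem_of_Q (n : ℕ) (μ : B.X) (h : d.Q n μ = 0) : μ ∈ d.pY := by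
  rw [mem_pY]
  refine tendsto_const_nhds.congr' ?_
  filter_upwards [eventually_ge_atTop n] with m hm
  rw [← d.Q_ge hm, h, map_zero]

noncomputable def hh (n : ℕ) : d.pY →L[ℂ] d.pY :=
  ((d.Q n - d.Q (n + 1)).comp d.pY.subtypeL).codRestrict d.pY
    (fun x => d.pY.sub_mem (d.Q_mem n _ x.2) (d.Q_mem (n + 1) _ x.2))

theorem hh_apply (n : ℕ) (x : d.pY) :
    ((d.hh n x : d.pY) : B.X) = d.Q n (x : B.X) - d.Q (n + 1) (x : B.X) := rfl

theorem hh_sum_range (N : ℕ) (x : d.pY) :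
    ∑ n ∈ Finset.range N, ‖d.hh n x‖ + ‖d.Q N (x : B.X)‖ ≤ ‖x‖ := by
  induction N with
  | zero =>
    rw [Finset.sum_range_zero, zero_add, d.Q_zero]
    rfl
  | succ N ih =>
    rw [Finset.sum_range_succ]
    have h1 := d.Q_split (N + 1) (d.Q N (x : B.X))
    rw [d.Q_ge (Nat.le_succ N)] at h1
    have h2 : ‖d.hh N x‖ = ‖d.Q N (x : B.X) - d.Q (N + 1) (x : B.X)‖ := rfl
    rw [h2]
    linarith

theorem hh_sum_le (F : Finset ℕ) (x : d.pY) : ∑ n ∈ F, ‖d.hh n x‖ ≤ 1 * ‖x‖ := by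
  obtain ⟨N, hN⟩ := F.exists_nat_subset_range
  have h1 := d.hh_sum_range N x
  have h2 : ∑ n ∈ F, ‖d.hh n x‖ ≤ ∑ n ∈ Finset.range N, ‖d.hh n x‖ :=
    Finset.sum_le_sum_of_subset_of_nonneg hN (fun _ _ _ => norm_nonneg _)
  have h3 := norm_nonneg (d.Q N (x : B.X))
  linarith

theorem hh_sum_eq (x : d.pY) : ∑' n, d.hh n x = x := by
  have : CompleteSpace d.pY := d.pY_closed.completeSpace_coe
  have hs : Summable (fun n => d.hh n x) :=
    (summable_of_sum_le (fun _ => norm_nonneg _) (fun F => d.hh_sum_le F x)).of_norm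
  refine tendsto_nhds_unique hs.hasSum.tendsto_sum_nat ?_
  have h1 : ∀ N, ((∑ n ∈ Finset.range N, d.hh n x : d.pY) : B.X) =
      x - d.Q N (x : B.X) := by
    intro N
    induction N with
    | zero =>
      rw [Finset.sum_range_zero, d.Q_zero, sub_self]
      rfl
    | succ N ih =>
      rw [Finset.sum_range_succ, Submodule.coe_add, ih, hh_apply]
      abel
  rw [tendsto_subtype_rng]
  simp_rw [h1]
  have h2 : Tendsto (fun N => (x : B.X) - d.Q N (x : B.X)) atTop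
      (𝓝 ((x : B.X) - 0)) := tendsto_const_nhds.sub x.2
  rw [sub_zero] at h2
  exact h2

/-- the subspaces -/
noncomputable def SS (n : ℕ) : Submodule ℂ d.pY :=
  LinearMap.ker ((d.Q (n + 1)).comp d.pY.subtypeL).toLinearMap

theorem mem_SS (n : ℕ) (x : d.pY) : x ∈ d.SS n ↔ d.Q (n + 1) (x : B.X) = 0 := Iff.rfl

/-- the limit at level `m` -/
noncomputable def LL (m : ℕ) : (ℕ →ᵇ d.pY) →ₗ[ℂ] d.pY :=
  LinearMap.codRestrict d.pY
    (((ContinuousLinearMap.id ℂ B.X - d.Q (m + 1)).toLinearMap.comp d.Lim).comp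
      (post d.pY.subtypeL).toLinearMap)
    (fun x => d.mem_of_Q (m + 1) _ (by
      change d.Q (m + 1) (d.Lim (post d.pY.subtypeL x) - d.Q (m + 1) (d.Lim (post d.pY.subtypeL x)))
        = 0
      rw [map_sub, d.Q_le le_rfl, sub_self]))

theorem LL_apply (m : ℕ) (x : ℕ →ᵇ d.pY) : ((d.LL m x : d.pY) : B.X) =
    d.Lim (post d.pY.subtypeL x) - d.Q (m + 1) (d.Lim (post d.pY.subtypeL x)) := rfl

theorem Q_wLim (n : ℕ) (x : ℕ →ᵇ d.pY) (h : ∀ ν, x ν ∈ d.SS n) :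
    d.Q (n + 1) (d.Lim (post d.pY.subtypeL x)) = 0 := by
  rw [← d.Lim_Q]
  exact d.Lim_const _ _ (fun ν => h ν)

theorem LL_eq (m : ℕ) (x : ℕ →ᵇ d.pY) (h : ∀ ν, x ν ∈ d.SS m) :
    ((d.LL m x : d.pY) : B.X) = d.Lim (post d.pY.subtypeL x) := by
  rw [LL_apply, d.Q_wLim m x h, sub_zero]

noncomputable def tow : Tow d.YM where
  h := d.hh
  S := d.SS
  S_closed := fun n => isClosed_singleton.preimage (ContinuousLinearMap.continuous _)
  S_act := fun n a y hy => by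
    change d.Q (n + 1) (B.act a (y : B.X)) = 0
    have h1 : d.Q (n + 1) (y : B.X) = 0 := hy
    rw [d.Q_act, h1, map_zero, map_zero]
  S_mono := fun m n hmn y hy => by
    have h1 : d.Q (m + 1) (y : B.X) = 0 := hy
    change d.Q (n + 1) (y : B.X) = 0
    rw [← d.Q_ge (Nat.succ_le_succ hmn), h1, map_zero]
  h_mem := fun n y => by
    change d.Q (n + 1) (d.Q n (y : B.X) - d.Q (n + 1) (y : B.X)) = 0
    rw [map_sub, d.Q_ge (Nat.le_succ n), d.Q_le le_rfl, sub_self]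
  h_pres := fun n m y hy => by
    have h1 : d.Q (n + 1) (y : B.X) = 0 := hy
    change d.Q (n + 1) (d.Q m (y : B.X) - d.Q (m + 1) (y : B.X)) = 0
    rw [map_sub, d.Q_comm, d.Q_comm (n + 1) (m + 1), h1, map_zero, map_zero, sub_self]
  C := 1
  C_nonneg := zero_le_one
  sum_le := d.hh_sum_le
  sum_eq := d.hh_sum_eq
  K := 1
  K_nonneg := zero_le_one
  L := d.LL
  L_mem := fun m x => by
    change d.Q (m + 1) (d.Lim (post d.pY.subtypeL x) -
      d.Q (m + 1) (d.Lim (post d.pY.subtypeL x))) = 0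
    rw [map_sub, d.Q_le le_rfl, sub_self]
  L_pres := fun m n hnm x hx => by
    change d.Q (n + 1) (d.Lim (post d.pY.subtypeL x) -
      d.Q (m + 1) (d.Lim (post d.pY.subtypeL x))) = 0
    rw [map_sub, d.Q_comm, d.Q_wLim n x hx, map_zero, sub_zero]
  L_act := fun m a x y hx hxy => by
    have hy : ∀ ν, y ν ∈ d.SS m := fun ν => by
      rw [hxy ν]
      have h1 : d.Q (m + 1) ((x ν : d.pY) : B.X) = 0 := hx ν
      change d.Q (m + 1) (B.act a ((x ν : d.pY) : B.X)) = 0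
      rw [d.Q_act, h1, map_zero, map_zero]
    refine Subtype.ext ?_
    change ((d.LL m y : d.pY) : B.X) = B.act a ((d.LL m x : d.pY) : B.X)
    rw [d.LL_eq m x hx, d.LL_eq m y hy, ← d.Lim_act]
    congr 1
    ext ν : 1
    change ((y ν : d.pY) : B.X) = _
    rw [hxy ν]
    rfl
  L_const := fun m y hy x hx => by
    refine Subtype.ext ?_
    have hxS : ∀ ν, x ν ∈ d.SS m := fun ν => by rw [hx ν]; exact hy
    rw [d.LL_eq m x hxS]
    refine d.Lim_const _ _ (fun ν => ?_)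
    change ((x ν : d.pY) : B.X) = _
    rw [hx ν]
  L_norm := fun m x r hr => by
    rw [one_mul]
    change ‖d.Lim (post d.pY.subtypeL x) - d.Q (m + 1) (d.Lim (post d.pY.subtypeL x))‖ ≤ r
    exact (d.Q_norm' _ _).trans (d.Lim_norm _ _ hr)

/-- the natural map of `A` to `Y` is not given by an element of `Y` -/
theorem not_TT (ι : A →L[ℂ] B.X) (P : ℕ → A →L[ℂ] A) (hQι : ∀ n f, d.Q n (ι f) = ι (P n f))
    (hP : ∀ f, Tendsto (fun n => P n f) atTop (𝓝 0)) (hne : ∀ n, ∃ a, a ≠ 0 ∧ P n a = a)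
    (hι : ∀ a b, ι (a * b) = B.act a (ι b)) (hι1 : ∀ a, ‖ι a‖ = ‖a‖)
    (hB : ∀ a μ, ‖B.act a μ‖ ≤ ‖a‖ * ‖μ‖) : ¬ TT 0 d.YM := by
  intro h
  have hmem : ∀ f, ι f ∈ d.pY := by
    intro f
    rw [mem_pY]
    simp_rw [hQι]
    have := (ι.continuous.tendsto 0).comp (hP f)
    rw [map_zero] at this
    exact this
  obtain ⟨y, hy⟩ := h (ι.codRestrict d.pY hmem) (fun a b => Subtype.ext (hι a b))
  have hy' : ∀ a, ι a = B.act a ((y : d.pY) : B.X) := fun a =>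
    congrArg Subtype.val (hy a)
  have h1 : Tendsto (fun n => ‖d.Q n ((y : d.pY) : B.X)‖) atTop (𝓝 0) :=
    tendsto_zero_iff_norm_tendsto_zero.1 y.2
  obtain ⟨n, hn⟩ := (h1.eventually_lt_const (zero_lt_one)).exists
  obtain ⟨a, ha0, ha⟩ := hne n
  have h2 : ι a = d.Q n (B.act a (d.Q n ((y : d.pY) : B.X))) := by
    rw [← d.Q_act, ← hy', hQι, ha]
  have h5 : ‖a‖ ≤ ‖a‖ * ‖d.Q n ((y : d.pY) : B.X)‖ := by
    rw [← hι1]
    conv_lhs => rw [h2]
    rw [hι1]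
    exact (d.Q_norm n _).trans (hB _ _)
  have h6 : 0 < ‖a‖ := norm_pos_iff.2 ha0
  nlinarith

end Bas

end Pool.Agent.H724R3.Vol
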