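import Mathlib

set_option autoImplicit false

/-!
# Modules and resolutions, in terms of continuous linear maps (internal version)

All modules are complex Banach modules over a complex Banach algebra `A` (without unit), the
homology is relative Banach homology.
-/

namespace Pool.Agent.H724R3.Vol

section Defs

variable (A : Type) [NonUnitalNormedRing A] [NormedSpace ℂ A]

/-- A Banach left `A`-module: a complex Banach space `X` with a bounded bilinear action
`(a, x) ↦ a x` such that `(a b) x = a (b x)`. -/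
structure LMod where
  X : Type
  [grp : NormedAddCommGroup X]
  [spc : NormedSpace ℂ X]
  [cpl : CompleteSpace X]
  act : A →L[ℂ] X →L[ℂ] X
  act_mul : ∀ (a b : A) (x : X), act (a * b) x = act a (act b x)

attribute [instance] LMod.grp LMod.spc LMod.cpl

variable {A}

/-- Morphisms of Banach left modules: bounded linear maps commuting with the action. -/
def IsMor (M N : LMod A) (f : M.X →L[ℂ] N.X) : Prop :=
  ∀ a x, f (M.act a x) = N.act a (f x)

/-- A Banach left module `P` is projective if every morphism onto `P` which has a right inverse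
as a bounded linear map has a right inverse as a morphism. -/
def Projective (P : LMod A) : Prop :=
  ∀ (Y : LMod A) (π : Y.X →L[ℂ] P.X), IsMor Y P π →
    (∃ s : P.X →L[ℂ] Y.X, ∀ p, π (s p) = p) →
    ∃ ψ : P.X →L[ℂ] Y.X, IsMor P Y ψ ∧ ∀ p, π (ψ p) = p

/-- A projective resolution `0 ← M ← P 0 ← P 1 ← ⋯` of `M` with `P k = 0` for `k > n`: a complex
of projective Banach left modules over `M` which splits as a complex of Banach spaces (by the
bounded linear contracting homotopy `σ, s`). -/
structure ProjRes (M : LMod A) (n : ℕ) where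
  P : ℕ → LMod A
  proj : ∀ k, Projective (P k)
  ε : (P 0).X →L[ℂ] M.X
  ε_mor : IsMor (P 0) M ε
  d : ∀ k, (P (k + 1)).X →L[ℂ] (P k).X
  d_mor : ∀ k, IsMor (P (k + 1)) (P k) (d k)
  ε_d : ∀ x, ε (d 0 x) = 0
  d_d : ∀ k x, d k (d (k + 1) x) = 0
  σ : M.X →L[ℂ] (P 0).X
  s : ∀ k, (P k).X →L[ℂ] (P (k + 1)).X
  split_ε : ∀ x, ε (σ x) = x
  split_zero : ∀ x, σ (ε x) + d 0 (s 0 x) = x
  split_succ : ∀ k x, s k (d k x) + d (k + 1) (s (k + 1) x) = x
  zero : ∀ k, n < k → ∀ x : (P k).X, x = 0

/-- A Banach `A`-bimodule: a complex Banach space `X` with bounded bilinear left and right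
actions; `ract a x` stands for `x a`. -/
structure BiMod (A : Type) [NonUnitalNormedRing A] [NormedSpace ℂ A] where
  X : Type
  [grp : NormedAddCommGroup X]
  [spc : NormedSpace ℂ X]
  [cpl : CompleteSpace X]
  lact : A →L[ℂ] X →L[ℂ] X
  ract : A →L[ℂ] X →L[ℂ] X
  lact_mul : ∀ (a b : A) (x : X), lact (a * b) x = lact a (lact b x)
  ract_mul : ∀ (a b : A) (x : X), ract (a * b) x = ract b (ract a x)
  lact_ract : ∀ (a b : A) (x : X), lact a (ract b x) = ract b (lact a x)

attribute [instance] BiMod.grp BiMod.spc BiMod.cpl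

/-- The Hochschild coboundary
`(δ f)(a₀, …, aₙ) = a₀ f(a₁, …, aₙ) + ∑_{i<n} (-1)^{i+1} f(a₀, …, aᵢ aᵢ₊₁, …, aₙ)
  + (-1)^{n+1} f(a₀, …, aₙ₋₁) aₙ`. -/
noncomputable def hoch (M : BiMod A) {n : ℕ} (f : (Fin n → A) → M.X) (v : Fin (n + 1) → A) : M.X :=
  M.lact (v 0) (f (Fin.tail v)) +
    ∑ i : Fin n, (-1 : ℤ) ^ ((i : ℕ) + 1) • f (Fin.contractNth i.castSucc (· * ·) v) +
    (-1 : ℤ) ^ (n + 1) • M.ract (v (Fin.last n)) (f (Fin.init v))

/-- `H^{n+1}(A, M) = 0`: every bounded `(n+1)`-linear cocycle with values in the bimodule `M` is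
the coboundary of a bounded `n`-linear cochain. -/
def HZero (M : BiMod A) (n : ℕ) : Prop :=
  ∀ f : ContinuousMultilinearMap ℂ (fun _ : Fin (n + 1) => A) M.X, (∀ v, hoch M f v = 0) →
    ∃ g : ContinuousMultilinearMap ℂ (fun _ : Fin n => A) M.X, ∀ v, hoch M g v = f v

end Defs

end Pool.Agent.H724R3.Vol
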