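import Pool.Agent.H724R3.Vol.Alg

set_option autoImplicit false
set_option linter.unusedVariables false
set_option linter.unusedSectionVars false

open Filter Topology
open scoped BoundedContinuousFunction

namespace Pool.Agent.H724R3.Vol

section Ell

variable {E F : Type} [NormedAddCommGroup E] [NormedSpace ℂ E] [NormedAddCommGroup F]
  [NormedSpace ℂ F]

/-- `ℓ¹(ℕ; E)` -/
abbrev l1 (E : Type) [NormedAddCommGroup E] : Type := lp (fun _ : ℕ => E) 1

theorem l1_summable (f : l1 E) : Summable (fun n => ‖f n‖) := by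
  simpa using f.2.summable

theorem l1_norm (f : l1 E) : ‖f‖ = ∑' n, ‖f n‖ := by
  rw [lp.norm_eq_tsum_rpow (by simp)]
  simp

theorem l1_sum_le (f : l1 E) (s : Finset ℕ) : ∑ n ∈ s, ‖f n‖ ≤ ‖f‖ := by
  rw [l1_norm]
  exact (l1_summable f).sum_le_tsum s (fun _ _ => norm_nonneg _)

theorem l1_norm_le (f : l1 E) (C : ℝ) (h : ∀ s : Finset ℕ, ∑ n ∈ s, ‖f n‖ ≤ C) : ‖f‖ ≤ C := by
  rw [l1_norm]
  exact (l1_summable f).tsum_le_of_sum_le h

theorem l1_mem (f : ℕ → E) (C : ℝ) (h : ∀ s : Finset ℕ, ∑ n ∈ s, ‖f n‖ ≤ C) :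
    Memℓp (E := fun _ : ℕ => E) f 1 := by
  apply memℓp_gen
  simp only [ENNReal.toReal_one, Real.rpow_one]
  exact summable_of_sum_le (fun _ => norm_nonneg _) h

/-- a bounded map into `ℓ¹(ℕ; F)` with given coordinates -/
noncomputable def mkL1 (T : ℕ → E →L[ℂ] F) (C : ℝ)
    (h : ∀ (s : Finset ℕ) (x : E), ∑ n ∈ s, ‖T n x‖ ≤ C * ‖x‖) : E →L[ℂ] l1 F :=
  LinearMap.mkContinuous
    { toFun := fun x => (⟨fun n => T n x, l1_mem _ (C * ‖x‖) (fun s => h s x)⟩ : l1 F)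
      map_add' := fun x y => by
        ext n
        change T n (x + y) = T n x + T n y
        rw [map_add]
      map_smul' := fun c x => by
        ext n
        change T n (c • x) = c • T n x
        rw [map_smul] } C (fun x => l1_norm_le _ _ (fun s => h s x))

theorem mkL1_apply (T : ℕ → E →L[ℂ] F) (C : ℝ)
    (h : ∀ (s : Finset ℕ) (x : E), ∑ n ∈ s, ‖T n x‖ ≤ C * ‖x‖) (x : E) (n : ℕ) :
    (mkL1 T C h x : l1 F) n = T n x := rfl

/-- the ultrafilter used for limits -/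
noncomputable abbrev UU : Filter ℕ := (hyperfilter ℕ : Filter ℕ)

theorem exists_ulim {Z : Type} [PseudoMetricSpace Z] [ProperSpace Z] (x : ℕ → Z) (z : Z) (R : ℝ)
    (h : ∀ n, dist (x n) z ≤ R) : ∃ y, Tendsto x UU (𝓝 y) := by
  have hK : IsCompact (Metric.closedBall z R) := isCompact_closedBall z R
  have h1 : ((hyperfilter ℕ).map x : Filter Z) ≤ 𝓟 (Metric.closedBall z R) := by
    rw [le_principal_iff]
    exact Filter.mem_map.2 (Filter.univ_mem' (fun n => Metric.mem_closedBall.2 (h n)))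
  obtain ⟨y, -, hy⟩ := hK.ultrafilter_le_nhds ((hyperfilter ℕ).map x) h1
  exact ⟨y, hy⟩

theorem exists_norm_ulim (x : ℕ →ᵇ E) : ∃ r, Tendsto (fun ν => ‖x ν‖) UU (𝓝 r) :=
  exists_ulim _ 0 ‖x‖ (fun n => by
    rw [Real.dist_eq, sub_zero, abs_norm]
    exact x.norm_coe_le_norm n)

/-- postcomposition on bounded sequences -/
noncomputable def post (T : E →L[ℂ] F) : (ℕ →ᵇ E) →L[ℂ] (ℕ →ᵇ F) :=
  ContinuousLinearMap.compLeftContinuousBounded ℕ T

theorem post_apply (T : E →L[ℂ] F) (x : ℕ →ᵇ E) (ν : ℕ) : post T x ν = T (x ν) := rfl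

/-- the coordinates of `ℓ¹(ℕ; E)` -/
noncomputable def co (n : ℕ) : l1 E →L[ℂ] E := lp.evalCLM ℂ (fun _ : ℕ => E) 1 n

theorem co_apply (n : ℕ) (f : l1 E) : co n f = f n := rfl

/-- coordinatewise limits -/
noncomputable def l1lim (L : ℕ → (ℕ →ᵇ E) →ₗ[ℂ] E) (K : ℝ) (hK : 0 ≤ K)
    (hL : ∀ n x r, Tendsto (fun ν => ‖x ν‖) UU (𝓝 r) → ‖L n x‖ ≤ K * r) :
    (ℕ →ᵇ l1 E) →ₗ[ℂ] l1 E :=
  have key : ∀ (x : ℕ →ᵇ l1 E) (r : ℝ), Tendsto (fun ν => ‖x ν‖) UU (𝓝 r) →
      ∀ s : Finset ℕ, ∑ n ∈ s, ‖L n (post (co n) x)‖ ≤ K * r := by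
    intro x r hr s
    choose ρ hρ using fun n => exists_norm_ulim (post (co n) x)
    have h1 : ∑ n ∈ s, ρ n ≤ r := by
      refine le_of_tendsto_of_tendsto (tendsto_finsetSum s (fun n _ => hρ n)) hr ?_
      exact Eventually.of_forall (fun ν => l1_sum_le (x ν) s)
    calc ∑ n ∈ s, ‖L n (post (co n) x)‖ ≤ ∑ n ∈ s, K * ρ n :=
          Finset.sum_le_sum (fun n _ => hL n _ _ (hρ n))
      _ = K * ∑ n ∈ s, ρ n := by rw [Finset.mul_sum]
      _ ≤ K * r := by gcongr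
  { toFun := fun x => (⟨fun n => L n (post (co n) x),
      l1_mem _ (K * (exists_norm_ulim x).choose) (key x _ (exists_norm_ulim x).choose_spec)⟩ : l1 E)
    map_add' := fun x y => by
      ext n
      change L n (post (co n) (x + y)) = L n (post (co n) x) + L n (post (co n) y)
      rw [map_add, map_add]
    map_smul' := fun c x => by
      ext n
      change L n (post (co n) (c • x)) = c • L n (post (co n) x)
      rw [map_smul, map_smul] }

theorem l1lim_apply (L : ℕ → (ℕ →ᵇ E) →ₗ[ℂ] E) (K : ℝ) (hK : 0 ≤ K)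
    (hL : ∀ n x r, Tendsto (fun ν => ‖x ν‖) UU (𝓝 r) → ‖L n x‖ ≤ K * r) (x : ℕ →ᵇ l1 E) (n : ℕ) :
    (l1lim L K hK hL x : l1 E) n = L n (post (co n) x) := rfl

theorem l1lim_norm (L : ℕ → (ℕ →ᵇ E) →ₗ[ℂ] E) (K : ℝ) (hK : 0 ≤ K)
    (hL : ∀ n x r, Tendsto (fun ν => ‖x ν‖) UU (𝓝 r) → ‖L n x‖ ≤ K * r) (x : ℕ →ᵇ l1 E) (r : ℝ)
    (hr : Tendsto (fun ν => ‖x ν‖) UU (𝓝 r)) : ‖l1lim L K hK hL x‖ ≤ K * r := by
  refine l1_norm_le _ _ (fun s => ?_)
  choose ρ hρ using fun n => exists_norm_ulim (post (co n) x)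
  have h1 : ∑ n ∈ s, ρ n ≤ r := by
    refine le_of_tendsto_of_tendsto (tendsto_finsetSum s (fun n _ => hρ n)) hr ?_
    exact Eventually.of_forall (fun ν => l1_sum_le (x ν) s)
  calc ∑ n ∈ s, ‖L n (post (co n) x)‖ ≤ ∑ n ∈ s, K * ρ n :=
        Finset.sum_le_sum (fun n _ => hL n _ _ (hρ n))
    _ = K * ∑ n ∈ s, ρ n := by rw [Finset.mul_sum]
    _ ≤ K * r := by gcongr

theorem tsum_single (m : ℕ) (v : E) [CompleteSpace E] :
    lp.tsumCLM ℂ ℕ E (lp.single (E := fun _ : ℕ => E) 1 m v) = v := by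
  rw [lp.tsumCLM_apply]
  rw [tsum_eq_single m]
  · simp
  · intro b hb
    simp [hb]

end Ell

section Mod

variable {A : Type} [NonUnitalNormedRing A] [NormedSpace ℂ A]

/-- closed submodules -/
noncomputable abbrev subMod (M : LMod A) (p : Submodule ℂ M.X) (hc : IsClosed (p : Set M.X))
    (hp : ∀ a, ∀ x ∈ p, M.act a x ∈ p) : LMod A :=
  haveI : CompleteSpace p := hc.completeSpace_coe
  { X := p
    act := LinearMap.mkContinuous₂ (LinearMap.mk₂ ℂ
      (fun (a : A) (x : p) => (⟨M.act a x, hp a x x.2⟩ : p))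
      (fun a b x => Subtype.ext (by simp))
      (fun c a x => Subtype.ext (by simp))
      (fun a x y => Subtype.ext (by simp))
      (fun c a x => Subtype.ext (by simp))) ‖M.act‖ (fun a x => M.act.le_opNorm₂ a x)
    act_mul := fun a b x => Subtype.ext (M.act_mul a b x) }

theorem subMod_act (M : LMod A) (p : Submodule ℂ M.X) (hc : IsClosed (p : Set M.X))
    (hp : ∀ a, ∀ x ∈ p, M.act a x ∈ p) (a : A) (x : p) :
    (((subMod M p hc hp).act a x : p) : M.X) = M.act a x := rfl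

/-- the module `ℓ¹(ℕ; M)` -/
noncomputable abbrev l1Mod (M : LMod A) : LMod A :=
  { X := l1 M.X
    act := LinearMap.mkContinuous₂ (LinearMap.mk₂ ℂ
      (fun (a : A) (x : l1 M.X) => (⟨fun n => M.act a (x n),
        l1_mem _ (‖M.act‖ * ‖a‖ * ‖x‖) (fun s => by
          calc ∑ n ∈ s, ‖M.act a (x n)‖ ≤ ∑ n ∈ s, ‖M.act‖ * ‖a‖ * ‖x n‖ :=
                Finset.sum_le_sum (fun n _ => M.act.le_opNorm₂ a (x n))
            _ = ‖M.act‖ * ‖a‖ * ∑ n ∈ s, ‖x n‖ := by rw [Finset.mul_sum]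
            _ ≤ ‖M.act‖ * ‖a‖ * ‖x‖ := by gcongr; exact l1_sum_le x s)⟩ : l1 M.X))
      (fun a b x => by
        ext n
        change M.act (a + b) (x n) = M.act a (x n) + M.act b (x n)
        simp)
      (fun c a x => by
        ext n
        change M.act (c • a) (x n) = c • M.act a (x n)
        simp)
      (fun a x y => by
        ext n
        change M.act a (x n + y n) = M.act a (x n) + M.act a (y n)
        simp)
      (fun c a x => by
        ext n
        change M.act a (c • x n) = c • M.act a (x n)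
        simp)) ‖M.act‖ (fun a x => by
          refine l1_norm_le _ _ (fun s => ?_)
          calc ∑ n ∈ s, ‖M.act a (x n)‖ ≤ ∑ n ∈ s, ‖M.act‖ * ‖a‖ * ‖x n‖ :=
                Finset.sum_le_sum (fun n _ => M.act.le_opNorm₂ a (x n))
            _ = ‖M.act‖ * ‖a‖ * ∑ n ∈ s, ‖x n‖ := by rw [Finset.mul_sum]
            _ ≤ ‖M.act‖ * ‖a‖ * ‖x‖ := by gcongr; exact l1_sum_le x s)
    act_mul := fun a b x => by
      ext n
      exact M.act_mul a b (x n) }

theorem l1Mod_act (M : LMod A) (a : A) (x : l1 M.X) (n : ℕ) :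
    ((l1Mod M).act a x : l1 M.X) n = M.act a (x n) := rfl

end Mod

end Pool.Agent.H724R3.Vol
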