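import Pool.Agent.H724R3.Vol.L1

set_option autoImplicit false
set_option linter.unusedVariables false
set_option linter.unusedSectionVars false

open Filter Topology
open scoped BoundedContinuousFunction

namespace Pool.Agent.H724R3.Vol

variable {A : Type} [NonUnitalNormedRing A] [NormedSpace ℂ A] [IsScalarTower ℂ A A]
  [SMulCommClass ℂ A A]

/-- An `ℓ¹`-decomposition of a module with limits on the pieces. -/
structure Tow (Y : LMod A) where
  h : ℕ → Y.X →L[ℂ] Y.X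
  S : ℕ → Submodule ℂ Y.X
  S_closed : ∀ n, IsClosed (S n : Set Y.X)
  S_act : ∀ n a, ∀ y ∈ S n, Y.act a y ∈ S n
  S_mono : Monotone S
  h_mem : ∀ n y, h n y ∈ S n
  h_pres : ∀ n m, ∀ y ∈ S n, h m y ∈ S n
  C : ℝ
  C_nonneg : 0 ≤ C
  sum_le : ∀ (F : Finset ℕ) (y : Y.X), ∑ n ∈ F, ‖h n y‖ ≤ C * ‖y‖
  sum_eq : ∀ y, ∑' n, h n y = y
  K : ℝ
  K_nonneg : 0 ≤ K
  L : ℕ → (ℕ →ᵇ Y.X) →ₗ[ℂ] Y.X
  L_mem : ∀ m x, L m x ∈ S m
  L_pres : ∀ m n, n ≤ m → ∀ x : ℕ →ᵇ Y.X, (∀ ν, x ν ∈ S n) → L m x ∈ S n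
  L_act : ∀ m a (x y : ℕ →ᵇ Y.X), (∀ ν, x ν ∈ S m) → (∀ ν, y ν = Y.act a (x ν)) →
    L m y = Y.act a (L m x)
  L_const : ∀ m, ∀ y ∈ S m, ∀ x : ℕ →ᵇ Y.X, (∀ ν, x ν = y) → L m x = y
  L_norm : ∀ m (x : ℕ →ᵇ Y.X) (r : ℝ), Tendsto (fun ν => ‖x ν‖) UU (𝓝 r) → ‖L m x‖ ≤ K * r

namespace Tow

variable {Y : LMod A} (t : Tow Y)

/-- the cover `D` -/
def pD : Submodule ℂ (l1 Y.X) where
  carrier := {y | ∀ n, y n ∈ t.S n}
  add_mem' := fun hx hy n => (t.S n).add_mem (hx n) (hy n)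
  zero_mem' := fun n => (t.S n).zero_mem
  smul_mem' := fun c x hx n => (t.S n).smul_mem c (hx n)

theorem pD_closed : IsClosed (t.pD : Set (l1 Y.X)) := by
  have : (t.pD : Set (l1 Y.X)) = ⋂ n, (co n : l1 Y.X →L[ℂ] Y.X) ⁻¹' (t.S n : Set Y.X) := by
    ext y
    simp only [Set.mem_iInter, Set.mem_preimage, SetLike.mem_coe]
    rfl
  rw [this]
  exact isClosed_iInter (fun n => (t.S_closed n).preimage (co n).continuous)

noncomputable abbrev DM : LMod A := subMod (l1Mod Y) t.pD t.pD_closed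
  (fun a x hx n => t.S_act n a (x n) (hx n))

/-- summation -/
noncomputable def sm : l1 Y.X →L[ℂ] Y.X := lp.tsumCLM ℂ ℕ Y.X

theorem sm_apply (y : l1 Y.X) : sm y = ∑' n, y n := rfl

theorem sm_act (a : A) (y : l1 Y.X) : sm ((l1Mod Y).act a y : l1 Y.X) = Y.act a (sm y) := by
  rw [sm_apply, sm_apply, ContinuousLinearMap.map_tsum _ (l1_summable y).of_norm]
  rfl

/-- the kernel `Y₊` -/
noncomputable def pK : Submodule ℂ (l1 Y.X) := t.pD ⊓ LinearMap.ker (sm (Y := Y)).toLinearMap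

theorem mem_pK (y : l1 Y.X) : y ∈ t.pK ↔ (∀ n, y n ∈ t.S n) ∧ sm y = 0 := Iff.rfl

theorem pK_closed : IsClosed (t.pK : Set (l1 Y.X)) :=
  t.pD_closed.inter (isClosed_singleton.preimage (sm (Y := Y)).continuous)

noncomputable abbrev KM : LMod A := subMod (l1Mod Y) t.pK t.pK_closed
  (fun a x hx => ⟨fun n => t.S_act n a (x n) (hx.1 n), by
    have h2 : sm x = 0 := hx.2
    change sm ((l1Mod Y).act a x : l1 Y.X) = 0
    rw [sm_act, h2, map_zero]⟩)

/-- the section `Y → D` -/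
noncomputable def sec0 : Y.X →L[ℂ] l1 Y.X := mkL1 t.h t.C t.sum_le

theorem sec0_mem (y : Y.X) : t.sec0 y ∈ t.pD := fun n => t.h_mem n y

theorem sm_sec0 (y : Y.X) : sm (t.sec0 y) = y := t.sum_eq y

noncomputable def sec : Y.X →L[ℂ] t.pD := t.sec0.codRestrict t.pD t.sec0_mem

noncomputable def σ : t.pD →L[ℂ] Y.X := (sm (Y := Y)).comp t.pD.subtypeL

noncomputable def j : t.pK →L[ℂ] t.pD :=
  t.pK.subtypeL.codRestrict t.pD (fun x => x.2.1)

theorem sm_sub_sec (z : t.pD) : sm ((z : l1 Y.X) - t.sec0 (sm (z : l1 Y.X))) = 0 := by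
  rw [map_sub, sm_sec0, sub_self]

noncomputable def q : t.pD →L[ℂ] t.pK :=
  (t.pD.subtypeL - t.sec0.comp t.σ).codRestrict t.pK
    (fun z => ⟨t.pD.sub_mem z.2 (t.sec0_mem _), t.sm_sub_sec z⟩)

theorem L1lim_UL : UL t.DM := by
  let Λ0 := l1lim t.L t.K t.K_nonneg t.L_norm
  have hmem : ∀ x : ℕ →ᵇ t.pD, Λ0 (post t.pD.subtypeL x) ∈ t.pD := fun x n => t.L_mem n _
  let Λ : (ℕ →ᵇ t.pD) →ₗ[ℂ] t.pD :=
    LinearMap.codRestrict t.pD (Λ0.comp (post t.pD.subtypeL).toLinearMap) hmem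
  have hΛ : ∀ x n, ((Λ x : t.pD) : l1 Y.X) n = t.L n (post (co n) (post t.pD.subtypeL x)) :=
    fun x n => rfl
  have hn : ∀ (x : ℕ →ᵇ t.pD) (r : ℝ), Tendsto (fun ν => ‖x ν‖) UU (𝓝 r) → ‖Λ x‖ ≤ t.K * r :=
    fun x r hr => l1lim_norm t.L t.K t.K_nonneg t.L_norm (post t.pD.subtypeL x) r hr
  refine ⟨Λ, t.K, fun x => ?_, fun a x y hxy => ?_, fun x y hxy => ?_⟩
  · obtain ⟨r, hr⟩ := exists_norm_ulim x
    refine (hn x r hr).trans ?_
    have : r ≤ ‖x‖ := le_of_tendsto hr (Eventually.of_forall (fun ν => x.norm_coe_le_norm ν))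
    have := t.K_nonneg
    gcongr
  · refine Subtype.ext ?_
    ext n
    change ((Λ y : t.pD) : l1 Y.X) n = Y.act a (((Λ x : t.pD) : l1 Y.X) n)
    rw [hΛ, hΛ]
    refine t.L_act n a _ _ (fun ν => (x ν).2 n) (fun ν => ?_)
    change ((y ν : t.pD) : l1 Y.X) n = Y.act a (((x ν : t.pD) : l1 Y.X) n)
    rw [hxy ν]
    rfl
  · let c : ℕ →ᵇ t.pD := BoundedContinuousFunction.const ℕ y
    have h1 : Λ c = y := by
      refine Subtype.ext ?_
      ext n
      rw [hΛ]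
      exact t.L_const n _ (y.2 n) _ (fun ν => rfl)
    have h2 : Tendsto (fun ν => ‖(x - c) ν‖) UU (𝓝 0) := by
      have h3 : Tendsto (fun ν => ‖x ν - y‖) atTop (𝓝 0) := tendsto_iff_norm_sub_tendsto_zero.1 hxy
      exact h3.mono_left Nat.hyperfilter_le_atTop
    have h4 := hn (x - c) 0 h2
    rw [mul_zero] at h4
    have h5 : Λ (x - c) = 0 := norm_le_zero_iff.1 h4
    rw [map_sub, h1, sub_eq_zero] at h5
    exact h5

/-- the correction -/
noncomputable def corr (m : ℕ) : l1 Y.X →L[ℂ] l1 Y.X :=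
  ContinuousLinearMap.id ℂ (l1 Y.X) -
    (lp.singleContinuousLinearMap ℂ (fun _ : ℕ => Y.X) 1 m).comp sm

theorem corr_apply (m : ℕ) (y : l1 Y.X) :
    corr m y = y - lp.single (E := fun _ : ℕ => Y.X) 1 m (sm y) := rfl

theorem sm_corr (m : ℕ) (y : l1 Y.X) : sm (corr m y) = 0 := by
  rw [corr_apply, map_sub, sub_eq_zero]
  exact (tsum_single m (sm y)).symm

theorem corr_coord (m n : ℕ) (y : l1 Y.X) :
    (corr m y : l1 Y.X) n = y n - if n = m then sm y else 0 := by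
  rw [corr_apply]
  change y n - (lp.single (E := fun _ : ℕ => Y.X) 1 m (sm y) : l1 Y.X) n = _
  congr 1
  rw [lp.coeFn_single]
  by_cases h : n = m
  · subst h; simp
  · simp [h]

theorem corr_norm (m : ℕ) (y : l1 Y.X) : ‖corr m y‖ ≤ 2 * ‖y‖ := by
  rw [corr_apply]
  refine (norm_sub_le _ _).trans ?_
  rw [lp.norm_single zero_lt_one]
  have : ‖sm y‖ ≤ ‖y‖ := lp.norm_tsum_le y
  linarith

theorem sm_mem (m : ℕ) (y : l1 Y.X) (hy : ∀ n, y n ∈ t.S m) : sm y ∈ t.S m := by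
  rw [sm_apply]
  have h1 : HasSum (fun n => y n) (∑' n, y n) := (l1_summable y).of_norm.hasSum
  refine (t.S_closed m).mem_of_tendsto h1 (Eventually.of_forall (fun s => ?_))
  exact Submodule.sum_mem _ (fun n _ => hy n)

/-- limit at level `m` on `ℓ¹` -/
noncomputable def lim0 (m : ℕ) : (ℕ →ᵇ l1 Y.X) →ₗ[ℂ] l1 Y.X :=
  l1lim (fun _ => t.L m) t.K t.K_nonneg (fun _ => t.L_norm m)

theorem lim0_apply (m n : ℕ) (x : ℕ →ᵇ l1 Y.X) :
    (t.lim0 m x : l1 Y.X) n = t.L m (post (co n) x) := rfl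

theorem lim0_mem (m : ℕ) (x : ℕ →ᵇ l1 Y.X) (hx : ∀ ν, x ν ∈ t.pD) (n : ℕ) :
    (t.lim0 m x : l1 Y.X) n ∈ t.S n := by
  rw [lim0_apply]
  rcases le_or_gt n m with h | h
  · exact t.L_pres m n h _ (fun ν => hx ν n)
  · exact t.S_mono h.le (t.L_mem m _)

theorem lim1_mem (m : ℕ) (x : ℕ →ᵇ l1 Y.X) (hx : ∀ ν, x ν ∈ t.pD) :
    corr m (t.lim0 m x) ∈ t.pK := by
  refine ⟨fun n => ?_, sm_corr m _⟩
  rw [corr_coord]
  by_cases h : n = m
  · subst h
    rw [if_pos rfl]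
    exact (t.S n).sub_mem (t.lim0_mem n x hx n)
      (t.sm_mem n _ (fun k => t.L_mem n _))
  · rw [if_neg h, sub_zero]
    exact t.lim0_mem m x hx n

/-- the operators on the kernel -/
noncomputable def nh (m : ℕ) : t.pK →L[ℂ] t.pK :=
  ((lp.mapCLM 1 (fun _ : ℕ => t.h m) (norm_nonneg _) (fun _ => le_rfl)).comp
    t.pK.subtypeL).codRestrict t.pK (fun x => ⟨fun n => t.h_pres n m _ (x.2.1 n), by
      change sm (lp.mapCLM 1 (fun _ : ℕ => t.h m) (norm_nonneg _) (fun _ => le_rfl)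
        (x : l1 Y.X)) = 0
      have h1 : sm (x : l1 Y.X) = 0 := x.2.2
      have h2 : sm (lp.mapCLM 1 (fun _ : ℕ => t.h m) (norm_nonneg _) (fun _ => le_rfl)
        (x : l1 Y.X)) = t.h m (sm (x : l1 Y.X)) := by
        rw [sm_apply, sm_apply,
          ContinuousLinearMap.map_tsum _ (l1_summable (x : l1 Y.X)).of_norm]
        rfl
      rw [h2, h1, map_zero]⟩)

theorem nh_apply (m n : ℕ) (y : t.pK) : ((t.nh m y : t.pK) : l1 Y.X) n = t.h m ((y : l1 Y.X) n) :=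
  rfl

theorem nh_sum_le (F : Finset ℕ) (y : t.pK) : ∑ m ∈ F, ‖t.nh m y‖ ≤ t.C * ‖y‖ := by
  change ∑ m ∈ F, ‖((t.nh m y : t.pK) : l1 Y.X)‖ ≤ t.C * ‖(y : l1 Y.X)‖
  have e1 : ∀ m, ‖((t.nh m y : t.pK) : l1 Y.X)‖ = ∑' n, ‖t.h m ((y : l1 Y.X) n)‖ :=
    fun m => l1_norm _
  have e2 : ∀ m, Summable (fun n => ‖t.h m ((y : l1 Y.X) n)‖) := fun m =>
    l1_summable ((t.nh m y : t.pK) : l1 Y.X)
  simp_rw [e1]
  rw [← Summable.tsum_finsetSum (fun m _ => e2 m), l1_norm, ← tsum_mul_left]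
  refine Summable.tsum_le_tsum (fun n => t.sum_le F _) ?_ ?_
  · exact summable_sum (fun m _ => e2 m)
  · exact (l1_summable (y : l1 Y.X)).mul_left t.C

theorem nh_sum_eq (y : t.pK) : ∑' m, t.nh m y = y := by
  haveI : CompleteSpace t.pK := t.pK_closed.completeSpace_coe
  have hs : Summable (fun m => t.nh m y) :=
    (summable_of_sum_le (fun _ => norm_nonneg _) (fun F => t.nh_sum_le F y)).of_norm
  refine Subtype.ext ?_
  ext n
  have h1 := ContinuousLinearMap.map_tsum ((co n : l1 Y.X →L[ℂ] Y.X).comp t.pK.subtypeL) hs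
  change ((∑' m, t.nh m y : t.pK) : l1 Y.X) n = _ at h1
  rw [h1]
  exact t.sum_eq ((y : l1 Y.X) n)

/-- The kernel inherits the structure. -/
noncomputable def next : Tow t.KM where
  h := t.nh
  S := fun m =>
    { carrier := {y : t.pK | ∀ n, (y : l1 Y.X) n ∈ t.S m}
      add_mem' := fun hx hy n => (t.S m).add_mem (hx n) (hy n)
      zero_mem' := fun n => (t.S m).zero_mem
      smul_mem' := fun c x hx n => (t.S m).smul_mem c (hx n) }
  S_closed := fun m => by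
    have h0 : {y : t.pK | ∀ n, (y : l1 Y.X) n ∈ t.S m} =
        ⋂ n, ((co n : l1 Y.X →L[ℂ] Y.X).comp t.pK.subtypeL) ⁻¹' (t.S m : Set Y.X) := by
      ext y
      simp only [Set.mem_iInter, Set.mem_preimage, SetLike.mem_coe, Set.mem_ofPred_eq]
      rfl
    change IsClosed {y : t.pK | ∀ n, (y : l1 Y.X) n ∈ t.S m}
    rw [h0]
    exact isClosed_iInter (fun n => (t.S_closed m).preimage (ContinuousLinearMap.continuous _))
  S_act := fun m a y hy n => t.S_act m a _ (hy n)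
  S_mono := fun m k hmk y hy n => t.S_mono hmk (hy n)
  h_mem := fun m y n => t.h_mem m _
  h_pres := fun k m y hy n => t.h_pres k m _ (hy n)
  C := t.C
  C_nonneg := t.C_nonneg
  sum_le := t.nh_sum_le
  sum_eq := t.nh_sum_eq
  K := 2 * t.K
  K_nonneg := by have := t.K_nonneg; positivity
  L := fun m => LinearMap.codRestrict t.pK
    ((corr m).toLinearMap.comp ((t.lim0 m).comp (post t.pK.subtypeL).toLinearMap))
    (fun x => t.lim1_mem m _ (fun ν => (x ν).2.1))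
  L_mem := fun m x n => by
    change (corr m (t.lim0 m (post t.pK.subtypeL x)) : l1 Y.X) n ∈ t.S m
    rw [corr_coord]
    refine (t.S m).sub_mem (t.L_mem m _) ?_
    split_ifs
    · exact t.sm_mem m _ (fun k => t.L_mem m _)
    · exact (t.S m).zero_mem
  L_pres := fun m k hkm x hx n => by
    change (corr m (t.lim0 m (post t.pK.subtypeL x)) : l1 Y.X) n ∈ t.S k
    have h1 : ∀ n, (t.lim0 m (post t.pK.subtypeL x) : l1 Y.X) n ∈ t.S k := fun n =>
      t.L_pres m k hkm _ (fun ν => hx ν n)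
    rw [corr_coord]
    refine (t.S k).sub_mem (h1 n) ?_
    split_ifs
    · exact t.sm_mem k _ h1
    · exact (t.S k).zero_mem
  L_act := fun m a x y hx hxy => by
    refine Subtype.ext ?_
    have h1 : t.lim0 m (post t.pK.subtypeL y) =
        ((l1Mod Y).act a (t.lim0 m (post t.pK.subtypeL x)) : l1 Y.X) := by
      ext n
      refine t.L_act m a _ _ (fun ν => hx ν n) (fun ν => ?_)
      change ((y ν : t.pK) : l1 Y.X) n = Y.act a (((x ν : t.pK) : l1 Y.X) n)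
      rw [hxy ν]
      rfl
    change corr m (t.lim0 m (post t.pK.subtypeL y)) =
      ((l1Mod Y).act a (corr m (t.lim0 m (post t.pK.subtypeL x))) : l1 Y.X)
    rw [h1]
    ext n
    change _ = Y.act a ((corr m (t.lim0 m (post t.pK.subtypeL x)) : l1 Y.X) n)
    rw [corr_coord, corr_coord, sm_act, map_sub]
    congr 1
    split_ifs
    · rfl
    · rw [map_zero]
  L_const := fun m y hy x hx => by
    refine Subtype.ext ?_
    have h1 : t.lim0 m (post t.pK.subtypeL x) = (y : l1 Y.X) := by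
      ext n
      refine t.L_const m _ (hy n) _ (fun ν => ?_)
      change ((x ν : t.pK) : l1 Y.X) n = (y : l1 Y.X) n
      rw [hx ν]
    change corr m (t.lim0 m (post t.pK.subtypeL x)) = (y : l1 Y.X)
    have h2 : sm (y : l1 Y.X) = 0 := y.2.2
    rw [h1, corr_apply, h2, lp.single_zero, sub_zero]
  L_norm := fun m x r hr => by
    change ‖corr m (t.lim0 m (post t.pK.subtypeL x))‖ ≤ 2 * t.K * r
    refine (corr_norm m _).trans ?_
    rw [mul_assoc]
    have := l1lim_norm (fun _ => t.L m) t.K t.K_nonneg (fun _ => t.L_norm m)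
      (post t.pK.subtypeL x) r hr
    exact mul_le_mul_of_nonneg_left this (by norm_num)

theorem shift (hA : BRAI A) (k : ℕ) (hT : TT (k + 1) t.KM) : TT k Y := by
  refine TT_shift hA k (Y' := t.KM) (D := t.DM) (Y := Y) t.j t.σ t.sec t.q
    (fun a x => rfl) (fun a x => sm_act a _) (fun y => t.sm_sec0 y) ?_ ?_ t.L1lim_UL hT
  · intro y
    refine Subtype.ext ?_
    change (y : l1 Y.X) - t.sec0 (sm (y : l1 Y.X)) = y
    have h2 : sm (y : l1 Y.X) = 0 := y.2.2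
    rw [h2, map_zero, sub_zero]
  · intro z
    refine Subtype.ext ?_
    change ((z : l1 Y.X) - t.sec0 (sm (z : l1 Y.X))) + t.sec0 (sm (z : l1 Y.X)) = z
    abel

end Tow

/-- From one module to modules with non-vanishing cohomology in all degrees. -/
theorem exists_not_TT (hA : BRAI A) (Y : LMod A) (t : Tow Y) (hY : ¬ TT 0 Y) :
    ∀ k : ℕ, ∃ Z : LMod A, Nonempty (Tow Z) ∧ ¬ TT k Z
  | 0 => ⟨Y, ⟨t⟩, hY⟩
  | k + 1 => by
      obtain ⟨Z, ⟨u⟩, hZ⟩ := exists_not_TT hA Y t hY k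
      exact ⟨u.KM, ⟨u.next⟩, fun h => hZ (u.shift hA k h)⟩

end Pool.Agent.H724R3.Vol
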